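import Mathlib
import Pool.Agent.H33.DiaDefs

/-!
# The sentence forced by `DiamondHolds`, evaluated in the universe, implies diamond
-/

set_option autoImplicit false

namespace Pool.Agent.U946

open Set Cardinal

/-- `C` is a closed unbounded subset of `ω₁` (the sentence named by `IsClubName`). -/
def PlainClub (C : Pool.Agent.H33.DiaDefs.W → Prop) : Prop :=
  (∀ a, ∃ b, a < b ∧ C b) ∧ ∀ a, (∃ b, b < a) → (∀ b, b < a → ∃ c, (b < c ∧ c < a) ∧ C c) → C a

/-- Diamond: the sentence which `DiamondHolds P` says is forced, evaluated in the universe. -/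
def PlainDiamond : Prop :=
  ∃ A : Pool.Agent.H33.DiaDefs.W → Pool.Agent.H33.DiaDefs.W → Prop,
    ∀ S C : Pool.Agent.H33.DiaDefs.W → Prop,
      PlainClub C → ∃ a, C a ∧ ∀ b, b < a → (S b ↔ A a b)

theorem diamond_of_plain (h : PlainDiamond) : Pool.Agent.H33.DiaDefs.Diamond := by
  obtain ⟨A, hA⟩ := h
  refine ⟨fun α => {b | b < α ∧ A α b}, fun X t ht => ?_⟩
  have hmax : ∀ a : Pool.Agent.H33.DiaDefs.W, ∃ b, a < b := by
    intro a
    by_contra hcon
    push Not at hcon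
    have h1 : (univ : Set Pool.Agent.H33.DiaDefs.W) ⊆ insert a (Iio a) := by
      intro b _
      rcases (hcon b).lt_or_eq with h | h
      · exact Or.inr h
      · exact Or.inl h
    have h2 := ((Pool.Agent.H33.DiaDefs.cnt a).insert a).mono h1
    have := Pool.Agent.H33.DiaDefs.unc
    exact Set.not_countable_univ h2
  have hC : PlainClub (· ∈ t) := by
    refine ⟨fun a => ?_, fun a ha hac => ?_⟩
    · obtain ⟨a', ha'⟩ := hmax a
      obtain ⟨b, hb, hab⟩ := ht.isCofinal a'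
      exact ⟨b, ha'.trans_le hab, hb⟩
    · obtain ⟨b0, hb0⟩ := ha
      obtain ⟨c0, ⟨-, hc0⟩, hc0t⟩ := hac b0 hb0
      refine ht.dirSupClosed (d := {c | c ∈ t ∧ c < a}) (fun c hc => hc.1) ⟨c0, hc0t, hc0⟩ ?_ ?_
      · intro x hx y hy
        rcases le_total x y with h | h
        · exact ⟨y, hy, h, le_rfl⟩
        · exact ⟨x, hx, le_rfl, h⟩
      · refine ⟨fun c hc => hc.2.le, fun u hu => ?_⟩
        by_contra hcon
        push Not at hcon
        obtain ⟨c, ⟨hc1, hc2⟩, hc⟩ := hac u hcon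
        exact absurd (hu ⟨hc, hc2⟩) (not_le.2 hc1)
  obtain ⟨a, ha, hab⟩ := hA (· ∈ X) (· ∈ t) hC
  refine ⟨a, ?_, ha⟩
  ext b
  constructor
  · rintro ⟨hb, hba⟩
    exact ⟨hba, (hab b hba).1 hb⟩
  · rintro ⟨hba, hb⟩
    exact ⟨(hab b hba).2 hb, hba⟩

end Pool.Agent.U946
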