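import Mathlib
import Pool.Agent.V11242.FS.Catch
import Pool.Agent.H42.DomDefs
import Pool.Agent.W684.MADef

/-!
# Free Suslin trees: two presentations, and Martin's axiom

* `free_of_phi` : a free Suslin tree on the nodes `K × ℕ` gives one in the sense of `FreeSuslin`.
* `no_free` : Martin's axiom for `ℵ₁` dense sets implies that there are no free Suslin trees.
-/

set_option autoImplicit false

namespace Pool.Agent.U946.FT

open Set Cardinal Pool.Agent.V11242.FS Pool.Agent.H42.Dom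

section A

variable {K : Type} [LinearOrder K] {lt : Nd K → Nd K → Prop}

theorem comp_trans (hT : IsTree lt) {a b a' b' : Nd K} (ha : Le lt a a') (hb : Le lt b b')
    (h : Comp lt a' b') : Comp lt a b := by
  rcases h with h | h
  · exact hT.comp_of_le (ha.trans hT h) hb
  · exact hT.comp_of_le ha (hb.trans hT h)

variable [NoMaxOrder K]

theorem pre_ccc (hI : ∀ k : K, (Iic k).Countable) (hT : IsTree lt) (hF : Free lt) {n : ℕ} (β : K)
    (A : Set (Fin n → Nd K)) (hA : ∀ a ∈ A, ∀ i, β ≤ (a i).1)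
    (hinj : ∀ a ∈ A, ∀ i j, i ≠ j → ∀ s : Nd K, s.1 = β → Le lt s (a i) → ¬ Le lt s (a j))
    (hanti : ∀ a ∈ A, ∀ b ∈ A, a ≠ b → ¬ ∀ i, Comp lt (a i) (b i)) : A.Countable := by
  have hS : {s : Fin n → Nd K | ∀ i, (s i).1 = β}.Countable := by
    have h1 : {s : Fin n → Nd K | ∀ i, (s i).1 = β} = Set.pi univ fun _ => {x : Nd K | x.1 = β} := by
      ext s; simp
    rw [h1]
    refine Set.countable_univ_pi fun _ => (countable_low hI β).mono fun x hx => ?_
    exact le_of_eq hx
  have h2 : A ⊆ ⋃ s ∈ {s : Fin n → Nd K | ∀ i, (s i).1 = β}, {a ∈ A | Ab lt s a} := by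
    intro a ha
    have h3 : ∀ i, ∃ s : Nd K, s.1 = β ∧ Le lt s (a i) := by
      intro i
      rcases (hA a ha i).lt_or_eq with h | h
      · obtain ⟨x, hx, hx'⟩ := hT.pred (a i) β h
        exact ⟨x, hx, Or.inr hx'⟩
      · exact ⟨a i, h.symm, Or.inl rfl⟩
    choose s hs hs' using h3
    exact mem_biUnion (show s ∈ {s : Fin n → Nd K | ∀ i, (s i).1 = β} from hs) ⟨ha, hs'⟩
  refine (hS.biUnion fun s hs => ?_).mono h2
  rcases Set.eq_empty_or_nonempty {a ∈ A | Ab lt s a} with h | ⟨a, ha, ha'⟩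
  · rw [h]; exact countable_empty
  · refine ccc_set hI hF (s := s) ⟨fun i j hij => ?_, fun i j => (hs i).trans (hs j).symm⟩ _
      (fun t ht => ht.2) (fun t ht u hu htu => hanti t ht.1 u hu.1 htu)
    by_contra hne
    refine hinj a ha i j hne (s i) (hs i) (ha' i) ?_
    rw [hij]
    exact ha' j

theorem main_ccc (hI : ∀ k : K, (Iic k).Countable) (hT : IsTree lt) (hF : Free lt) {n : ℕ}
    (t : Fin n → Nd K) (ht : ∀ i j, i ≠ j → ¬ Comp lt (t i) (t j))
    (A : Set (Fin n → Nd K)) (hA : ∀ a ∈ A, ∀ i, Le lt (t i) (a i))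
    (hanti : ∀ a ∈ A, ∀ b ∈ A, a ≠ b → ¬ ∀ i, Comp lt (a i) (b i)) : A.Countable := by
  obtain ⟨β, hβ⟩ := exists_ub' hT hF (S := range fun i => (t i).1) (countable_range _)
  have hβ' : ∀ i, (t i).1 < β := fun i => hβ _ ⟨i, rfl⟩
  choose e he he' using fun x : Nd K => exists_succ' hT x β
  let E : (Fin n → Nd K) → (Fin n → Nd K) := fun a i => e (a i)
  have key : ∀ a ∈ A, ∀ b ∈ A, a ≠ b → ¬ ∀ i, Comp lt (E a i) (E b i) := fun a ha b hb hab h =>
    hanti a ha b hb hab fun i => comp_trans hT (he _) (he _) (h i)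
  have hinj : InjOn E A := by
    intro a ha b hb hab
    by_contra hne
    exact key a ha b hb hne fun i => Or.inl (by rw [hab]; exact Le.refl _)
  refine Set.countable_of_injective_of_countable_image hinj ?_
  refine pre_ccc hI hT hF β (E '' A) ?_ ?_ ?_
  · rintro _ ⟨a, _, rfl⟩ i
    exact he' _
  · rintro _ ⟨a, ha, rfl⟩ i j hij s hs h1 h2
    have h3 : Le lt (t i) s := hT.lin ((hA a ha i).trans hT (he _)) h1 (hs ▸ (hβ' i).le)
    have h4 : Le lt (t j) s := hT.lin ((hA a ha j).trans hT (he _)) h2 (hs ▸ (hβ' j).le)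
    exact ht i j hij (hT.comp_of_le h3 h4)
  · rintro _ ⟨a, ha, rfl⟩ _ ⟨b, hb, rfl⟩ hne
    exact key a ha b hb fun h => hne (by rw [h])

theorem anti_ccc (hI : ∀ k : K, (Iic k).Countable) (hT : IsTree lt) (hF : Free lt)
    (A : Set (Nd K)) (hanti : ∀ a ∈ A, ∀ b ∈ A, a ≠ b → ¬ Comp lt a b) : A.Countable := by
  obtain ⟨k0⟩ := nonempty_of_free hF
  choose e he he' using fun x : Nd K => exists_succ' hT x k0
  let E : Nd K → (Fin 1 → Nd K) := fun a _ => e a
  have key : ∀ a ∈ A, ∀ b ∈ A, a ≠ b → ¬ ∀ i, Comp lt (E a i) (E b i) := fun a ha b hb hab h =>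
    hanti a ha b hb hab (comp_trans hT (he _) (he _) (h 0))
  have hinj : InjOn E A := by
    intro a ha b hb hab
    by_contra hne
    exact key a ha b hb hne fun i => Or.inl (by rw [hab]; exact Le.refl _)
  refine Set.countable_of_injective_of_countable_image hinj ?_
  refine pre_ccc hI hT hF k0 (E '' A) ?_ ?_ ?_
  · rintro _ ⟨a, _, rfl⟩ i
    exact he' _
  · rintro _ ⟨a, ha, rfl⟩ i j hij
    exact absurd (Subsingleton.elim i j) hij
  · rintro _ ⟨a, ha, rfl⟩ _ ⟨b, hb, rfl⟩ hne
    exact key a ha b hb fun h => hne (by rw [h])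

theorem chain_ccc [WellFoundedLT K] (hI : ∀ k : K, (Iic k).Countable) (hT : IsTree lt)
    (hF : Free lt) (C : Set (Nd K)) (hC : ∀ a ∈ C, ∀ b ∈ C, Comp lt a b) : C.Countable := by
  let nx : K → K := fun k => (wellFounded_lt (α := K)).min {β : K | k < β} (exists_gt k)
  have hnx : ∀ k, k < nx k := fun k =>
    (wellFounded_lt (α := K)).min_mem {β : K | k < β} (exists_gt k)
  have hnx' : ∀ k β : K, k < β → nx k ≤ β := fun k β h =>
    not_lt.1 ((wellFounded_lt (α := K)).not_lt_min {β : K | k < β} h)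
  have h1 : ∀ c : Nd K, ∃ x : Nd K, lt c x ∧ x.1 = nx c.1 ∧ ∀ d ∈ C, ¬ Le lt x d := by
    intro c
    obtain ⟨j, -, hj⟩ := hT.succ c (nx c.1) 0 (hnx _)
    obtain ⟨j', hjj', hj'⟩ := hT.succ c (nx c.1) (j + 1) (hnx _)
    by_cases h : ∀ d ∈ C, ¬ Le lt (nx c.1, j) d
    · exact ⟨_, hj, rfl, h⟩
    · push Not at h
      obtain ⟨d, hd, hd'⟩ := h
      refine ⟨_, hj', rfl, fun d' hd1 hd2 => ?_⟩
      have h2 : Comp lt ((nx c.1, j) : Nd K) (nx c.1, j') := comp_trans hT hd' hd2 (hC d hd d' hd1)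
      have h3 : ((nx c.1, j) : Nd K) = (nx c.1, j') := by
        rcases h2 with h2 | h2
        · exact h2.eq_of_lev hT le_rfl
        · exact (h2.eq_of_lev hT le_rfl).symm
      have h4 : j = j' := congrArg Prod.snd h3
      omega
  choose x hx1 hx2 hx3 using h1
  have key : ∀ a ∈ C, ∀ b ∈ C, a ≠ b → ¬ Comp lt (x a) (x b) := by
    have aux : ∀ a ∈ C, ∀ b ∈ C, a.1 < b.1 → ¬ Comp lt (x a) (x b) := by
      intro a ha b hb hab h
      have h5 : Comp lt (x a) b := comp_trans hT (Le.refl _) (Or.inr (hx1 b)) h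
      rcases h5 with h5 | h5
      · exact hx3 a b hb h5
      · have h6 : (x a).1 ≤ b.1 := by rw [hx2]; exact hnx' _ _ hab
        have h7 := h5.eq_of_lev hT h6
        exact hx3 a b hb (Or.inl h7.symm)
    intro a ha b hb hab h
    rcases lt_trichotomy a.1 b.1 with h8 | h8 | h8
    · exact aux a ha b hb h8 h
    · rcases hC a ha b hb with h9 | h9
      · exact hab (h9.eq_of_lev hT h8.ge)
      · exact hab (h9.eq_of_lev hT h8.le).symm
    · exact aux b hb a ha h8 h.symm
  have hinj : InjOn x C := by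
    intro a ha b hb hab
    by_contra hne
    exact key a ha b hb hne (Or.inl (by rw [hab]; exact Le.refl _))
  refine Set.countable_of_injective_of_countable_image hinj ?_
  refine anti_ccc hI hT hF _ ?_
  rintro _ ⟨a, ha, rfl⟩ _ ⟨b, hb, rfl⟩ hne
  exact key a ha b hb fun h => hne (by rw [h])

/-- The set of the nodes. -/
def Tr (_ : Nd K → Nd K → Prop) : Type := Nd K

/-- The partial order of the nodes. -/
@[reducible] def ord (hT : IsTree lt) : PartialOrder (Tr lt) where
  le x y := Le (K := K) lt x y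
  lt x y := Le (K := K) lt x y ∧ ¬ Le (K := K) lt y x
  le_refl x := Le.refl (K := K) x
  le_trans x y z h1 h2 := Le.trans hT h1 h2
  le_antisymm x y h1 h2 := h1.eq_of_lev hT (h2.lev hT)

/-- A free Suslin tree on `K × ℕ` is a free Suslin tree. -/
theorem free_of_phi [WellFoundedLT K] (hI : ∀ k : K, (Iic k).Countable) (h : Phi K) :
    ∃ (T : Type) (_ : PartialOrder T), FreeSuslin T := by
  obtain ⟨lt, hT, hF⟩ := h
  refine ⟨Tr lt, ord hT, ?_⟩
  let _ := ord hT
  have hlt : ∀ x y : Tr lt, x < y → lt x y := by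
    intro x y h
    rcases h.1 with h' | h'
    · exact absurd (Or.inl h'.symm) h.2
    · exact h'
  obtain ⟨k0⟩ := nonempty_of_free hF
  refine ⟨⟨((k0, 0) : Nd K)⟩, ?_, ?_, ?_, ?_, ?_, ?_⟩
  · refine ⟨Subrelation.wf (r := InvImage (· < ·) (Prod.fst : Nd K → K)) ?_
      (InvImage.wf _ wellFounded_lt)⟩
    intro x y h
    exact hT.lev x y (hlt x y h)
  · intro t x hx y hy _
    rcases hT.comp_of_le (Or.inr (hlt x t hx)) (Or.inr (hlt y t hy)) with h | h
    · exact Or.inl h
    · exact Or.inr h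
  · intro t ht
    obtain ⟨k, hk⟩ := exists_ub' hT hF (ht.image (Prod.fst : Nd K → K))
    obtain ⟨y, hy, hy'⟩ := exists_succ' hT t k
    exact absurd (hk y.1 ⟨y, hy, rfl⟩) (not_lt.2 hy')
  · intro C hC
    refine chain_ccc hI hT hF C fun a ha b hb => ?_
    by_cases hab : a = b
    · exact Or.inl (Or.inl hab)
    · rcases hC ha hb hab with h | h
      · exact Or.inl h
      · exact Or.inr h
  · intro A hA
    refine anti_ccc hI hT hF A fun a ha b hb hab h => ?_
    rcases h with h | h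
    · exact hA ha hb hab h
    · exact hA hb ha (Ne.symm hab) h
  · intro n t ht A hA hanti
    refine main_ccc hI hT hF t (fun i j hij h => ?_) A hA fun a ha b hb hab h => ?_
    · rcases h with h | h
      · exact ht hij h
      · exact ht (Ne.symm hij) h
    · obtain ⟨i, h1, h2⟩ := hanti ha hb hab
      rcases h i with h | h
      · exact h1 h
      · exact h2 h

end A

end Pool.Agent.U946.FT
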