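import Mathlib
import Pool.Agent.H42.DomDefs
import Pool.Agent.W684.MADef

/-!
# Martin's axiom for `ℵ₁` dense sets implies that there are no free Suslin trees
-/

set_option autoImplicit false

namespace Pool.Agent.U946.NF

open Set Cardinal Ordinal Pool.Agent.H42.Dom

theorem no_free (h : Pool.Agent.W684.MartinAxiomAleph1) :
    ¬ ∃ (T : Type) (_ : PartialOrder T), FreeSuslin T := by
  rintro ⟨T, _, hne, hwf, hchain, hcone, hC, hA, -⟩
  let r : T → Ordinal.{0} := fun t => IsWellFounded.rank (α := T) (· < ·) t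
  have hrlt : ∀ s t : T, s < t → r s < r t := fun s t h =>
    IsWellFounded.rank_lt_of_rel h
  have hr1 : ∀ t : T, r t < ω₁ := by
    intro t
    induction t using (wellFounded_lt (α := T)).induction with
    | _ t ih =>
      have hc : (Iio t).Countable := hC _ (hchain t)
      have : Countable {b : T // b < t} := hc.to_subtype
      show IsWellFounded.rank (α := T) (· < ·) t < ω₁
      rw [IsWellFounded.rank_eq]
      exact Ordinal.iSup_lt_omega_one fun b => (isSuccLimit_omega 1).succ_lt (ih b.1 b.2)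
  have hlev : ∀ α : Ordinal.{0}, {t : T | r t = α}.Countable := by
    intro α
    apply hA
    intro a ha b hb hab hle
    have h1 := hrlt a b (lt_of_le_of_ne hle hab)
    rw [show r a = α from ha, show r b = α from hb] at h1
    exact lt_irrefl _ h1
  have hlow : ∀ α : Ordinal.{0}, α < ω₁ → {t : T | r t < α}.Countable := by
    intro α hα
    have hcα : (Iio α).Countable := by
      rw [← Cardinal.le_aleph0_iff_set_countable, Cardinal.mk_Iio_ordinal]
      have : α.card < ℵ₁ := by
        rw [← Cardinal.lt_ord, Cardinal.ord_aleph]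
        exact hα
      rw [← succ_aleph0, Order.lt_succ_iff] at this
      exact Cardinal.lift_le_aleph0.2 this
    have : {t : T | r t < α} = ⋃ β ∈ Iio α, {t : T | r t = β} := by
      ext t; simp
    rw [this]
    exact hcα.biUnion fun β _ => hlev β
  let D : Ordinal.{0} → Set Tᵒᵈ := fun α => {t | α ≤ r (OrderDual.ofDual t)}
  have hccc : Pool.Agent.W684.IsCCC Tᵒᵈ := by
    intro A hAA
    have h2 : ((OrderDual.ofDual '' A : Set T)).Countable := by
      apply hA
      rintro _ ⟨a, ha, rfl⟩ _ ⟨b, hb, rfl⟩ hne hle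
      refine hAA a ha b hb (fun h => hne (by rw [h])) ⟨b, ?_, le_rfl⟩
      exact hle
    exact Set.countable_of_injective_of_countable_image
      (OrderDual.ofDual.injective.injOn) h2
  obtain ⟨G, hG0, -, hG2, hG3⟩ := h Tᵒᵈ hccc (D '' Iio ω₁) (by
    have h1 := Cardinal.mk_image_le_lift (f := D) (s := Iio ω₁)
    rw [Cardinal.mk_Iio_ordinal, Ordinal.card_omega, Cardinal.lift_id'] at h1
    exact Cardinal.lift_le.1 h1) (by
    rintro _ ⟨α, hα, rfl⟩ p
    by_contra hcon
    push Not at hcon
    refine hcone (OrderDual.ofDual p) ((hlow α hα).mono fun q hq => ?_)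
    by_contra hq'
    exact hcon (OrderDual.toDual q) (show α ≤ r q from not_lt.1 fun h => hq' h) hq)
  have hGc : ((OrderDual.ofDual '' G : Set T)).Countable := by
    apply hC
    rintro _ ⟨a, ha, rfl⟩ _ ⟨b, hb, rfl⟩ hne
    obtain ⟨c, -, hca, hcb⟩ := hG2 a ha b hb
    have h1 : OrderDual.ofDual a ≤ OrderDual.ofDual c := hca
    have h2 : OrderDual.ofDual b ≤ OrderDual.ofDual c := hcb
    rcases h1.lt_or_eq with h3 | h3
    · rcases h2.lt_or_eq with h4 | h4
      · exact hchain _ h3 h4 hne
      · left; rw [h4]; exact h1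
    · right; rw [h3]; exact h2
  have : Countable (OrderDual.ofDual '' G : Set T) := hGc.to_subtype
  have hsup : (⨆ t : (OrderDual.ofDual '' G : Set T), r t.1) < ω₁ :=
    Ordinal.iSup_lt_omega_one fun t => hr1 t.1
  have hsup' := (isSuccLimit_omega 1).succ_lt hsup
  obtain ⟨t, htG, htD⟩ := hG3 (D (Order.succ (⨆ t : (OrderDual.ofDual '' G : Set T), r t.1)))
    ⟨_, hsup', rfl⟩
  have h5 : Order.succ (⨆ t : (OrderDual.ofDual '' G : Set T), r t.1) ≤ r (OrderDual.ofDual t) :=
    htD
  have h6 : r (OrderDual.ofDual t) ≤ ⨆ t : (OrderDual.ofDual '' G : Set T), r t.1 :=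
    Ordinal.le_iSup (fun t : (OrderDual.ofDual '' G : Set T) => r t.1)
      ⟨OrderDual.ofDual t, t, htG, rfl⟩
  exact absurd (h5.trans h6) (not_le.2 (Order.lt_succ _))

end Pool.Agent.U946.NF
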