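import Mathlib
import Pool.Agent.Results.MP_820435_lc.NeverProvableAbove
import Pool.Agent.Results.MP_95a8e7_lc.Independence
import Pool.Agent.TH764.OG.Fam2
import Pool.Agent.Helper292.ForceCH

/-!
# Infinite paths or large independent sets in graphs on ordinals: the relation under CH
-/

set_option autoImplicit false

namespace Pool.Agent.U946.EHM

open Cardinal Ordinal Set
open Pool.Agent.Results.MP_95a8e7_lc.Independence (PropP)

/-- Under the continuum hypothesis, a limit ordinal below `ω₂` has the property if and only if it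
is less than `ω₁ ^ (ω + 2)`. -/
theorem propP_iff_of_ch (h : (ℵ₁ : Cardinal.{0}) = 𝔠) {α : Ordinal.{0}}
    (hα : Order.IsSuccLimit α) (h2 : α < ω_ 2) : PropP α ↔ α < ω_ 1 ^ (ω + 2) := by
  constructor
  · intro hP
    by_contra hcon
    rw [not_lt] at hcon
    have h3 := Results.MP_820435_lc.NeverProvableAbove.result α hcon h2 (by
      intro K hK
      classical
      let G : SimpleGraph α.ToType :=
        { Adj := fun x y => x ≠ y ∧ K x y
          symm := ⟨fun x y hxy => ⟨hxy.1.symm, hK x y hxy.2⟩⟩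
          loopless := ⟨fun x hx => hx.1 rfl⟩ }
      rcases hP G with ⟨v, hv1, hv2⟩ | ⟨S, hS1, hS2⟩
      · exact Or.inr ⟨v, hv1, fun n => (hv2 n).2⟩
      · refine Or.inl ⟨S, ?_, hS2⟩
        intro x hx y hy hxy hK'
        exact hS1 hx hy hxy ⟨hxy, hK'⟩)
    rw [← h] at h3
    exact lt_irrefl _ h3
  · intro hlt
    have h4 : TH764.OG.Rel α := by
      refine TH764.OG.main_zfc hα ?_
      intro γ hγ hc
      refine ⟨ℵ₀, le_rfl, hc, ?_⟩
      have h5 : ω ^ γ ≤ α := by
        obtain ⟨x, hx, rfl⟩ := List.mem_map.1 hγ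
        exact (Ordinal.opow_le_opow_right Ordinal.omega0_pos (Ordinal.CNF.fst_le_log hx)).trans
          (Ordinal.opow_log_le_self _ (by
            rintro rfl
            exact absurd hα.bot_lt (lt_irrefl _)))
      have h6 : (ω_ 1 : Ordinal.{0}) ≤ (ω ^ γ).card.ord := by
        have : (ℵ_ 1 : Cardinal.{0}) ≤ (ω ^ γ).card := by
          rw [Cardinal.aleph_one_le_iff]
          exact hc
        calc (ω_ 1 : Ordinal.{0}) = (ℵ_ 1 : Cardinal.{0}).ord := by simp
          _ ≤ _ := Cardinal.ord_le_ord.2 this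
      calc ω ^ γ ≤ α := h5
        _ < ω_ 1 ^ (ω + 2) := hlt
        _ ≤ (ω ^ γ).card.ord ^ (ω + 2) := Ordinal.opow_le_opow_left _ h6
        _ = (ω ^ γ).card.ord ^ ((ℵ₀ : Cardinal.{0}).ord + 2) := by rw [Cardinal.ord_aleph0]
    intro G
    exact (h4 G).symm

lemma isSuccLimit_critical : Order.IsSuccLimit ((ω_ 1 : Ordinal.{0}) ^ (ω + 2)) :=
  Ordinal.isSuccLimit_opow_left (isSuccLimit_omega 1) (by
    have : (0 : Ordinal.{0}) < ω + 2 := Ordinal.omega0_pos.trans_le le_self_add
    exact this.ne')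

lemma critical_lt : (ω_ 1 : Ordinal.{0}) ^ (ω + 2) < ω_ 2 := by
  have h0 : (ℵ₀ : Cardinal.{0}) ≤ ℵ_ 2 := Cardinal.aleph0_le_aleph 2
  have h1 : (ω_ 1 : Ordinal.{0}) < (ℵ_ 2 : Cardinal.{0}).ord := by
    rw [Cardinal.ord_aleph]
    exact Ordinal.omega_lt_omega.2 (by norm_num)
  have h2 : (ω + 2 : Ordinal.{0}) < (ℵ_ 2 : Cardinal.{0}).ord := by
    have : (ω : Ordinal.{0}) < (ℵ_ 2 : Cardinal.{0}).ord := by
      rw [Cardinal.ord_aleph]
      exact Ordinal.omega0_lt_omega_one.trans (Ordinal.omega_lt_omega.2 (by norm_num))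
    have hl := Cardinal.isSuccLimit_ord h0
    have h3 : (ω + 2 : Ordinal.{0}) = Order.succ (Order.succ ω) := by
      rw [Order.succ_eq_add_one, Order.succ_eq_add_one, add_assoc, one_add_one_eq_two]
    rw [h3]
    exact hl.succ_lt (hl.succ_lt this)
  have h3 := Ordinal.isPrincipal_opow_ord h0 h1 h2
  rwa [Cardinal.ord_aleph] at h3

end Pool.Agent.U946.EHM
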