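import Mathlib
import Pool.Agent.U946.DiamondBridge
import Pool.Agent.Results.MP_a0ad85_lc.DiamondCounterexample

/-!
# The plain diamond sentence implies diamond for ordinals
-/

set_option autoImplicit false

namespace Pool.Agent.U946

open Set Cardinal Ordinal

theorem diamond_ord_of_plain (h : PlainDiamond) :
    Pool.Agent.Results.MP_a0ad85_lc.DiamondCounterexample.Diamond := by
  obtain ⟨A, hA⟩ := h
  have hω : (ℵ_ 1 : Cardinal.{0}).ord = ω₁ := Cardinal.ord_aleph 1
  let e : Set.Iio (ℵ_ 1 : Cardinal.{0}).ord ≃o Pool.Agent.H33.DiaDefs.W := Ordinal.ToType.mk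
  have hlt : ∀ w : Pool.Agent.H33.DiaDefs.W, (e.symm w).1 < ω₁ := fun w => hω ▸ (e.symm w).2
  let A' : Ordinal.{0} → Set Ordinal.{0} := fun α =>
    {β | ∃ (hα : α < (ℵ_ 1 : Cardinal.{0}).ord) (hβ : β < (ℵ_ 1 : Cardinal.{0}).ord),
      β < α ∧ A (e ⟨α, hα⟩) (e ⟨β, hβ⟩)}
  refine ⟨A', fun α _ β hβ => ?_, fun S _ C hC => ?_⟩
  · obtain ⟨_, _, h, _⟩ := hβ
    exact h
  · have hPC : PlainClub (fun w => (e.symm w).1 ∈ C) := by
      refine ⟨fun a => ?_, fun a ha hac => ?_⟩
      · obtain ⟨γ, hγ, hle⟩ := hC.2.1 (Order.succ (e.symm a).1)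
          ((isSuccLimit_omega 1).succ_lt (hlt a))
        have hγ' : γ < (ℵ_ 1 : Cardinal.{0}).ord := hω.symm ▸ hC.1 hγ
        refine ⟨e ⟨γ, hγ'⟩, ?_, ?_⟩
        · rw [← e.symm_apply_lt]
          show (e.symm a).1 < γ
          exact (Order.lt_succ _).trans_le hle
        · simpa using hγ
      · obtain ⟨b0, hb0⟩ := ha
        refine hC.2.2 _ (hlt a) ?_ ?_
        · exact lt_of_le_of_lt (zero_le (a := (e.symm b0).1)) (show (e.symm b0).1 < (e.symm a).1 from
            e.symm.strictMono hb0)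
        · intro β hβ
          have hβ' : β < (ℵ_ 1 : Cardinal.{0}).ord := hβ.trans (e.symm a).2
          have h1 : e ⟨β, hβ'⟩ < a := by
            rw [← e.lt_symm_apply]
            exact hβ
          obtain ⟨c, ⟨hc1, hc2⟩, hc⟩ := hac _ h1
          refine ⟨(e.symm c).1, hc, ?_, e.symm.strictMono hc2⟩
          have h2 : (⟨β, hβ'⟩ : Set.Iio (ℵ_ 1 : Cardinal.{0}).ord) < e.symm c :=
            e.lt_symm_apply.2 hc1
          exact h2
    obtain ⟨a, ha, hab⟩ := hA (fun w => (e.symm w).1 ∈ S) _ hPC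
    refine ⟨(e.symm a).1, ha, ?_⟩
    ext β
    constructor
    · rintro ⟨hβS, hβ⟩
      have hβ' : β < (ℵ_ 1 : Cardinal.{0}).ord := (show β < (e.symm a).1 from hβ).trans (e.symm a).2
      have h1 : e ⟨β, hβ'⟩ < a := by
        rw [← e.lt_symm_apply]
        exact hβ
      refine ⟨(e.symm a).2, hβ', hβ, ?_⟩
      have h2 := (hab _ h1).1 (by simpa using hβS)
      simpa using h2
    · rintro ⟨h1, hβ', hβ, h2⟩
      refine ⟨?_, hβ⟩
      have h3 : e ⟨β, hβ'⟩ < a := by
        rw [← e.lt_symm_apply]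
        exact hβ
      have h5 : e ⟨(e.symm a).1, h1⟩ = a := e.apply_symm_apply a
      rw [h5] at h2
      have h4 := (hab _ h3).2 h2
      simpa using h4

end Pool.Agent.U946
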