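import Mathlib

/-!
# Turán numbers of hypergraphs and counting
-/

set_option autoImplicit false
open Finset

namespace Pool.Agent.U946.DN

/-- an `r`-graph on `n` points without a complete set of `k` points -/
def Free {n : ℕ} (r k : ℕ) (H : Finset (Finset (Fin n))) : Prop :=
  (∀ e ∈ H, e.card = r) ∧ ∀ S : Finset (Fin n), S.card = k → ∃ e ⊆ S, e.card = r ∧ e ∉ H

/-- the Turán number -/
noncomputable def ex (n r k : ℕ) : ℕ :=
  sSup {m : ℕ | ∃ H : Finset (Finset (Fin n)), Free r k H ∧ H.card = m}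

/-- the Turán density is `π` -/
def HasDensity (r k : ℕ) (π : ℝ) : Prop :=
  Filter.Tendsto (fun n : ℕ => (ex n r k : ℝ) / (n.choose r : ℝ)) Filter.atTop (nhds π)

lemma bdd (n r k : ℕ) : BddAbove {m : ℕ | ∃ H : Finset (Finset (Fin n)), Free r k H ∧ H.card = m} := by
  refine ⟨Fintype.card (Finset (Fin n)), ?_⟩
  rintro m ⟨H, -, rfl⟩
  exact card_le_univ H

lemma le_ex {n r k : ℕ} {H : Finset (Finset (Fin n))} (h : Free r k H) : H.card ≤ ex n r k :=
  le_csSup (bdd n r k) ⟨H, h, rfl⟩

lemma free_empty {n r k : ℕ} (hrk : r ≤ k) : Free r k (∅ : Finset (Finset (Fin n))) := by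
  refine ⟨fun e he => absurd he (notMem_empty e), fun S hS => ?_⟩
  obtain ⟨e, he, hec⟩ := exists_subset_card_eq (hrk.trans hS.ge)
  exact ⟨e, he, hec, notMem_empty e⟩

lemma exists_ex (n : ℕ) {r k : ℕ} (hrk : r ≤ k) : ∃ H : Finset (Finset (Fin n)), Free r k H ∧ H.card = ex n r k := by
  have h : ({m : ℕ | ∃ H : Finset (Finset (Fin n)), Free r k H ∧ H.card = m}).Nonempty :=
    ⟨_, ∅, free_empty hrk, rfl⟩
  exact Nat.sSup_mem h (bdd n r k)

/-- the same for a family of subsets of `W` -/
def FreeOn {n : ℕ} (W : Finset (Fin n)) (r k : ℕ) (L : Finset (Finset (Fin n))) : Prop :=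
  (∀ e ∈ L, e ⊆ W ∧ e.card = r) ∧ ∀ S ⊆ W, S.card = k → ∃ e ⊆ S, e.card = r ∧ e ∉ L

/-- an enumeration of `W` -/
noncomputable def en {n : ℕ} (W : Finset (Fin n)) : Fin W.card ↪ Fin n :=
  W.equivFin.symm.toEmbedding.trans (Function.Embedding.subtype _)

lemma map_en {n : ℕ} (W : Finset (Fin n)) : univ.map (en W) = W := by
  ext x
  rw [mem_map]
  constructor
  · rintro ⟨a, -, rfl⟩
    exact (W.equivFin.symm a).2
  · intro hx
    exact ⟨W.equivFin (⟨x, hx⟩ : W), mem_univ _, by simp [en]⟩

lemma freeOn_le {n r k : ℕ} {W : Finset (Fin n)} {L : Finset (Finset (Fin n))} (h : FreeOn W r k L) :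
    L.card ≤ ex W.card r k := by
  classical
  set H : Finset (Finset (Fin W.card)) := univ.filter fun e => e.map (en W) ∈ L with hH
  have hF : Free r k H := by
    refine ⟨fun e he => ?_, fun S hS => ?_⟩
    · rw [hH, mem_filter] at he
      have := (h.1 _ he.2).2
      rwa [card_map] at this
    · have hS1 : S.map (en W) ⊆ W := by
        conv_rhs => rw [← map_en W]
        exact map_subset_map.2 (subset_univ S)
      obtain ⟨e', he', hec, heL⟩ := h.2 _ hS1 (by rw [card_map, hS])
      rw [subset_map_iff] at he'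
      obtain ⟨e, he, rfl⟩ := he'
      refine ⟨e, he, by rwa [card_map] at hec, fun h2 => heL ?_⟩
      rw [hH, mem_filter] at h2
      exact h2.2
  refine le_trans ?_ (le_ex hF)
  have hsub : L ⊆ H.image (fun e => e.map (en W)) := by
    intro e he
    have h1 := (h.1 e he).1
    rw [← map_en W, subset_map_iff] at h1
    obtain ⟨u, -, rfl⟩ := h1
    exact mem_image.2 ⟨u, by rw [hH, mem_filter]; exact ⟨mem_univ _, he⟩, rfl⟩
  exact (card_le_card hsub).trans card_image_le

lemma exists_freeOn {n r k : ℕ} (W : Finset (Fin n)) (hrk : r ≤ k) :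
    ∃ L, FreeOn W r k L ∧ L.card = ex W.card r k := by
  classical
  obtain ⟨H, hH, hc⟩ := exists_ex W.card hrk
  refine ⟨H.image fun e => e.map (en W), ⟨fun e he => ?_, fun S hSW hS => ?_⟩, ?_⟩
  · rw [mem_image] at he
    obtain ⟨u, hu, rfl⟩ := he
    refine ⟨?_, by rw [card_map]; exact hH.1 u hu⟩
    conv_rhs => rw [← map_en W]
    exact map_subset_map.2 (subset_univ u)
  · rw [← map_en W, subset_map_iff] at hSW
    obtain ⟨T, -, rfl⟩ := hSW
    obtain ⟨e, he, hec, heH⟩ := hH.2 T (by rwa [card_map] at hS)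
    refine ⟨e.map (en W), map_subset_map.2 he, by rw [card_map, hec], fun h => heH ?_⟩
    rw [mem_image] at h
    obtain ⟨u, hu, hue⟩ := h
    have := map_injective (en W) hue
    rwa [← this]
  · rw [card_image_of_injective _ (map_injective (en W)), hc]

/-- averaging over the `m`-subsets -/
lemma avg {n q m : ℕ} (hqm : q ≤ m) (L : Finset (Finset (Fin n))) (hL : ∀ e ∈ L, e.card = q) :
    ∑ W ∈ powersetCard m (univ : Finset (Fin n)), (L.filter fun e => e ⊆ W).card =
      L.card * (n - q).choose (m - q) := by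
  classical
  have h1 : ∀ W ∈ powersetCard m (univ : Finset (Fin n)), (L.filter fun e => e ⊆ W).card =
      ∑ e ∈ L, if e ⊆ W then 1 else 0 := fun W _ => by rw [card_filter]
  rw [sum_congr rfl h1, sum_comm, card_eq_sum_ones, sum_mul]
  refine sum_congr rfl fun e he => ?_
  rw [← card_filter, card_filter_powersetCard_subset e univ m (subset_univ e) (by rw [hL e he]; exact hqm),
    hL e he, card_univ, Fintype.card_fin, one_mul]

/-- **counting with few complete sets** -/
lemma count {n q k m : ℕ} (hqk : q ≤ k) (hkm : k ≤ m) (L Bad : Finset (Finset (Fin n)))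
    (hL : ∀ e ∈ L, e.card = q) (hBad : ∀ e ∈ Bad, e.card = k)
    (h : ∀ S : Finset (Fin n), S.card = k → (∀ e ⊆ S, e.card = q → e ∈ L) → S ∈ Bad) :
    L.card * (n - q).choose (m - q) ≤
      n.choose m * ex m q k + Bad.card * (n - k).choose (m - k) * m.choose q := by
  classical
  rw [← avg (hqk.trans hkm) L hL, ← avg hkm Bad hBad, sum_mul]
  have h1 : n.choose m * ex m q k = ∑ _W ∈ powersetCard m (univ : Finset (Fin n)), ex m q k := by
    rw [sum_const, smul_eq_mul, card_powersetCard, card_univ, Fintype.card_fin]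
  rw [h1, ← sum_add_distrib]
  refine sum_le_sum fun W hW => ?_
  rw [mem_powersetCard] at hW
  rcases (Bad.filter fun e => e ⊆ W).eq_empty_or_nonempty with hb | hb
  · refine le_add_right ?_
    rw [← hW.2]
    refine freeOn_le ⟨fun e he => ?_, fun S hS hSc => ?_⟩
    · rw [mem_filter] at he
      exact ⟨he.2, hL e he.1⟩
    · by_contra hc
      push Not at hc
      have h2 := h S hSc fun e he hec => (mem_filter.1 (hc e he hec)).1
      have h3 : S ∈ Bad.filter fun e => e ⊆ W := mem_filter.2 ⟨h2, hS⟩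
      rw [hb] at h3
      exact notMem_empty _ h3
  · refine le_add_left ?_
    have h2 : (L.filter fun e => e ⊆ W).card ≤ m.choose q := by
      rw [← hW.2, ← card_powersetCard]
      refine card_le_card fun e he => ?_
      rw [mem_filter] at he
      exact mem_powersetCard.2 ⟨he.2, hL e he.1⟩
    have h3 : 1 ≤ (Bad.filter fun e => e ⊆ W).card := card_pos.2 hb
    nlinarith

lemma alg {A a b c d E B K X : ℝ} (ha : 0 < a) (hb : 0 < b) (e1 : A * a = d * c) (e2 : A * K = b * X) :
    A * E + B * X * a = (E / a + B / b * K) * d * c := by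
  have h1 : (E / a + B / b * K) * d * c = E / a * (d * c) + B / b * K * (d * c) := by ring
  have h2 : E / a * (A * a) = A * E := by field_simp
  have h3 : B / b * K * (A * a) = B * X * a := by
    have : B / b * K * (A * a) = B / b * (A * K) * a := by ring
    rw [this, e2]
    field_simp
  rw [h1, ← e1, h2, h3]

/-- the same with densities -/
lemma count_real {n q k m : ℕ} (hqk : q ≤ k) (hkm : k ≤ m) (hmn : m ≤ n) (L Bad : Finset (Finset (Fin n)))
    (hL : ∀ e ∈ L, e.card = q) (hBad : ∀ e ∈ Bad, e.card = k)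
    (h : ∀ S : Finset (Fin n), S.card = k → (∀ e ⊆ S, e.card = q → e ∈ L) → S ∈ Bad) :
    (L.card : ℝ) ≤ ((ex m q k : ℝ) / (m.choose q : ℝ) +
      (Bad.card : ℝ) / (n.choose k : ℝ) * (m.choose k : ℝ)) * (n.choose q : ℝ) := by
  have h1 := count hqk hkm L Bad hL hBad h
  have h2 : ((L.card : ℝ)) * ((n - q).choose (m - q) : ℝ) ≤ (n.choose m : ℝ) * (ex m q k : ℝ) +
      (Bad.card : ℝ) * ((n - k).choose (m - k) : ℝ) * (m.choose q : ℝ) := by exact_mod_cast h1
  have e1 : (n.choose m : ℝ) * (m.choose q : ℝ) = (n.choose q : ℝ) * ((n - q).choose (m - q) : ℝ) := by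
    exact_mod_cast Nat.choose_mul (n := n) (hqk.trans hkm)
  have e2 : (n.choose m : ℝ) * (m.choose k : ℝ) = (n.choose k : ℝ) * ((n - k).choose (m - k) : ℝ) := by
    exact_mod_cast Nat.choose_mul (n := n) hkm
  have p1 : (0 : ℝ) < (m.choose q : ℝ) := by exact_mod_cast Nat.choose_pos (hqk.trans hkm)
  have p2 : (0 : ℝ) < (n.choose k : ℝ) := by exact_mod_cast Nat.choose_pos (hkm.trans hmn)
  have p3 : (0 : ℝ) < ((n - q).choose (m - q) : ℝ) := by exact_mod_cast Nat.choose_pos (by omega)
  have p4 : (0 : ℝ) < (n.choose q : ℝ) := by exact_mod_cast Nat.choose_pos (by omega)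
  refine le_of_mul_le_mul_right (h2.trans (le_of_eq ?_)) p3
  exact alg p1 p2 e1 e2

/-- Katona–Nemetz–Simonovits: the densities decrease -/
lemma kns {n m r k : ℕ} (hrk : r ≤ k) (hkm : k ≤ m) (hmn : m ≤ n) :
    (ex n r k : ℝ) / (n.choose r : ℝ) ≤ (ex m r k : ℝ) / (m.choose r : ℝ) := by
  obtain ⟨H, hH, hc⟩ := exists_ex n hrk
  have h1 := count_real hrk hkm hmn H ∅ hH.1 (fun e he => absurd he (notMem_empty e)) fun S hS h2 => by
    exfalso
    obtain ⟨e, he, hec, heH⟩ := hH.2 S hS
    exact heH (h2 e he hec)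
  have p4 : (0 : ℝ) < (n.choose r : ℝ) := by exact_mod_cast Nat.choose_pos (by omega)
  rw [div_le_iff₀ p4, ← hc]
  simpa using h1

/-- the Turán density exists -/
lemma exists_density {r k : ℕ} (hrk : r ≤ k) : ∃ π : ℝ, HasDensity r k π := by
  set f : ℕ → ℝ := fun n => (ex (n + k) r k : ℝ) / ((n + k).choose r : ℝ) with hf
  have hanti : Antitone f := fun a b hab => kns hrk (by omega) (by omega)
  have hbdd : BddBelow (Set.range f) := ⟨0, by rintro _ ⟨n, rfl⟩; positivity⟩
  have h1 := tendsto_atTop_ciInf hanti hbdd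
  exact ⟨_, (Filter.tendsto_add_atTop_iff_nat k).1 h1⟩

lemma density_le {r k : ℕ} (hrk : r ≤ k) {π : ℝ} (hπ : HasDensity r k π) {m : ℕ} (hkm : k ≤ m) :
    π ≤ (ex m r k : ℝ) / (m.choose r : ℝ) := by
  refine le_of_tendsto hπ ?_
  filter_upwards [Filter.eventually_ge_atTop m] with n hn
  exact kns hrk hkm hn

lemma density_nonneg {r k : ℕ} {π : ℝ} (hπ : HasDensity r k π) : 0 ≤ π :=
  ge_of_tendsto' hπ fun n => by positivity

lemma ex_self (q : ℕ) : ex (q + 1) q (q + 1) ≤ q := by
  obtain ⟨H, hH, hc⟩ := exists_ex (q + 1) (Nat.le_succ q)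
  rw [← hc]
  obtain ⟨e, -, hec, heH⟩ := hH.2 univ (by rw [card_univ, Fintype.card_fin])
  have h1 : H ⊆ (powersetCard q univ).erase e := by
    intro f hf
    exact mem_erase.2 ⟨fun h => heH (h ▸ hf), mem_powersetCard.2 ⟨subset_univ _, hH.1 f hf⟩⟩
  refine (card_le_card h1).trans ?_
  rw [card_erase_of_mem (mem_powersetCard.2 ⟨subset_univ _, hec⟩), card_powersetCard, card_univ,
    Fintype.card_fin, Nat.choose_succ_self_right, Nat.add_sub_cancel]

lemma density_lt_one {q : ℕ} {π : ℝ} (hπ : HasDensity q (q + 1) π) : π < 1 := by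
  have h1 := density_le (Nat.le_succ q) hπ le_rfl
  have h2 : (ex (q + 1) q (q + 1) : ℝ) ≤ q := by exact_mod_cast ex_self q
  refine h1.trans_lt ?_
  rw [Nat.choose_succ_self_right, div_lt_one (by positivity)]
  push_cast
  linarith

/-! ## Links -/

/-- the degree of a point -/
def deg {n : ℕ} (H : Finset (Finset (Fin n))) (x : Fin n) : ℕ := (H.filter fun e => x ∈ e).card

/-- the `(q + 1)`-sets which do not form an edge with `x` -/
def Miss {n : ℕ} (q : ℕ) (H : Finset (Finset (Fin n))) (x : Fin n) : Finset (Finset (Fin n)) :=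
  (powersetCard (q + 1) univ).filter fun Z => x ∉ Z ∧ insert x Z ∉ H

/-- the `q`-sets which form an edge with `x` and `y` -/
def Lk {n : ℕ} (q : ℕ) (H : Finset (Finset (Fin n))) (x y : Fin n) : Finset (Finset (Fin n)) :=
  (powersetCard q univ).filter fun Y => x ∉ Y ∧ y ∉ Y ∧ insert x (insert y Y) ∈ H

section links

variable {n q : ℕ} {H : Finset (Finset (Fin n))}

lemma deg_add (hH : Free (q + 2) (q + 3) H) (x : Fin n) :
    deg H x + (Miss q H x).card = (n - 1).choose (q + 1) := by
  have h1 : deg H x = ((powersetCard (q + 1) (univ.erase x)).filter fun Z => insert x Z ∈ H).card := by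
    unfold deg
    refine card_bij' (fun e _ => e.erase x) (fun Z _ => insert x Z) ?_ ?_ ?_ ?_
    · intro e he
      rw [mem_filter] at he ⊢
      rw [mem_powersetCard, card_erase_of_mem he.2, hH.1 e he.1, insert_erase he.2]
      exact ⟨⟨erase_subset_erase x (subset_univ e), rfl⟩, he.1⟩
    · intro Z hZ
      rw [mem_filter] at hZ ⊢
      exact ⟨hZ.2, mem_insert_self x Z⟩
    · intro e he
      rw [mem_filter] at he
      exact insert_erase he.2
    · intro Z hZ
      rw [mem_filter, mem_powersetCard] at hZ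
      exact erase_insert fun h => (mem_erase.1 (hZ.1.1 h)).1 rfl
  have h2 : (Miss q H x).card = ((powersetCard (q + 1) (univ.erase x)).filter fun Z => insert x Z ∉ H).card := by
    unfold Miss
    congr 1
    ext Z
    rw [mem_filter, mem_filter, mem_powersetCard, mem_powersetCard]
    constructor
    · rintro ⟨⟨-, h3⟩, h4, h5⟩
      exact ⟨⟨fun z hz => mem_erase.2 ⟨fun h => h4 (h ▸ hz), mem_univ z⟩, h3⟩, h5⟩
    · rintro ⟨⟨h3, h4⟩, h5⟩
      exact ⟨⟨subset_univ Z, h4⟩, fun h => (mem_erase.1 (h3 h)).1 rfl, h5⟩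
  rw [h1, h2, card_filter_add_card_filter_not, card_powersetCard, card_erase_of_mem (mem_univ x),
    card_univ, Fintype.card_fin]

lemma lk_bad (hq : 1 ≤ q) (hH : Free (q + 2) (q + 3) H) {x y : Fin n} (hxy : x ≠ y) (S : Finset (Fin n))
    (hS : S.card = q + 1) (h : ∀ e ⊆ S, e.card = q → e ∈ Lk q H x y) : S ∈ Miss q H x ∪ Miss q H y := by
  have hmem : ∀ e, e ∈ Lk q H x y → x ∉ e ∧ y ∉ e ∧ insert x (insert y e) ∈ H := fun e he =>
    (mem_filter.1 he).2
  have hcov : ∀ z ∈ S, ∃ e ⊆ S, e.card = q ∧ z ∈ e := by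
    intro z hz
    obtain ⟨e, h1, h2, h3⟩ := exists_subsuperset_card_eq (singleton_subset_iff.2 hz)
      (by rw [card_singleton]; exact hq) (by rw [hS]; omega : q ≤ S.card)
    exact ⟨e, h2, h3, h1 (mem_singleton_self z)⟩
  have hxS : x ∉ S := by
    intro hx
    obtain ⟨e, he, hec, hxe⟩ := hcov x hx
    exact (hmem e (h e he hec)).1 hxe
  have hyS : y ∉ S := by
    intro hy
    obtain ⟨e, he, hec, hye⟩ := hcov y hy
    exact (hmem e (h e he hec)).2.1 hye
  have hT : (insert x (insert y S)).card = q + 3 := by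
    rw [card_insert_of_notMem (by simp [hxy, hxS]), card_insert_of_notMem hyS, hS]
  obtain ⟨e, he, hec, heH⟩ := hH.2 _ hT
  obtain ⟨a, ha, hae⟩ : ∃ a ∈ insert x (insert y S), a ∉ e := by
    by_contra hc
    push Not at hc
    have := card_le_card hc
    omega
  have hse : e = (insert x (insert y S)).erase a := by
    refine eq_of_subset_of_card_le (fun b hb => mem_erase.2 ⟨fun h => hae (h ▸ hb), he hb⟩) ?_
    rw [card_erase_of_mem ha, hT, hec]
    omega
  rw [mem_union]
  unfold Miss
  rw [mem_filter, mem_filter, mem_powersetCard]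
  by_cases hax : a = x
  · right
    subst hax
    rw [erase_insert (by simp [hxy, hxS])] at hse
    exact ⟨⟨subset_univ S, hS⟩, hyS, hse ▸ heH⟩
  by_cases hay : a = y
  · left
    subst hay
    have h1 : (insert x (insert a S)).erase a = insert x S := by
      rw [erase_insert_of_ne (Ne.symm hax), erase_insert hyS]
    rw [h1] at hse
    exact ⟨⟨subset_univ S, hS⟩, hxS, hse ▸ heH⟩
  · exfalso
    have haS : a ∈ S := by
      rw [mem_insert, mem_insert] at ha
      tauto
    have h1 : (insert x (insert y S)).erase a = insert x (insert y (S.erase a)) := by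
      rw [erase_insert_of_ne (Ne.symm hax), erase_insert_of_ne (Ne.symm hay)]
    rw [h1] at hse
    have h2 := h (S.erase a) (erase_subset a S) (by rw [card_erase_of_mem haS, hS]; rfl)
    exact heH (hse ▸ (hmem _ h2).2.2)

/-- the links of two points of large degree have few edges -/
lemma card_Lk (hq : 1 ≤ q) (hH : Free (q + 2) (q + 3) H) {m : ℕ} (hm : q + 1 ≤ m) (hmn : m ≤ n) {s : ℝ}
    {x y : Fin n} (hxy : x ≠ y) (hx : ((Miss q H x).card : ℝ) ≤ s * ((n - 1).choose (q + 1) : ℝ))
    (hy : ((Miss q H y).card : ℝ) ≤ s * ((n - 1).choose (q + 1) : ℝ)) (hs : 0 ≤ s) :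
    ((Lk q H x y).card : ℝ) ≤ ((ex m q (q + 1) : ℝ) / (m.choose q : ℝ) +
      2 * s * (m.choose (q + 1) : ℝ)) * (n.choose q : ℝ) := by
  have h1 := count_real (q := q) (k := q + 1) (Nat.le_succ q) hm hmn (Lk q H x y) (Miss q H x ∪ Miss q H y)
    (fun e he => (mem_powersetCard.1 (mem_filter.1 he).1).2) (fun e he => by
      rcases mem_union.1 he with h | h
      · exact (mem_powersetCard.1 (mem_filter.1 h).1).2
      · exact (mem_powersetCard.1 (mem_filter.1 h).1).2) (lk_bad hq hH hxy)
  refine h1.trans ?_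
  have p1 : (0 : ℝ) < (n.choose (q + 1) : ℝ) := by exact_mod_cast Nat.choose_pos (by omega)
  have h2 : ((Miss q H x ∪ Miss q H y).card : ℝ) ≤ 2 * s * (n.choose (q + 1) : ℝ) := by
    have h3 : ((Miss q H x ∪ Miss q H y).card : ℝ) ≤ (Miss q H x).card + (Miss q H y).card := by
      exact_mod_cast card_union_le _ _
    have h4 : ((n - 1).choose (q + 1) : ℝ) ≤ (n.choose (q + 1) : ℝ) := by
      exact_mod_cast Nat.choose_le_choose _ (Nat.sub_le n 1)
    nlinarith
  have h3 : ((Miss q H x ∪ Miss q H y).card : ℝ) / (n.choose (q + 1) : ℝ) ≤ 2 * s := by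
    rw [div_le_iff₀ p1]; exact h2
  gcongr

/-- the `q`-sets which give missing sets with exactly one point of `B` -/
def gd (q : ℕ) (H : Finset (Finset (Fin n))) (B : Finset (Fin n)) (x y : Fin n) :
    Finset (Finset (Fin n)) :=
  (powersetCard q ((univ.erase x).erase y)).filter fun Y => insert x (insert y Y) ∉ H ∧ ∀ z ∈ B, z ∉ Y

lemma card_gd (hq : 1 ≤ q) (B : Finset (Fin n)) {x y : Fin n} (hxy : y ≠ x) :
    (n - 2).choose q ≤ (gd q H B x y).card + (Lk q H x y).card + B.card * (n - 3).choose (q - 1) := by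
  set U : Finset (Fin n) := (univ.erase x).erase y with hU
  have hUc : U.card = n - 2 := by
    rw [hU, card_erase_of_mem (mem_erase.2 ⟨hxy, mem_univ y⟩), card_erase_of_mem (mem_univ x), card_univ,
      Fintype.card_fin]
    omega
  set C : Finset (Finset (Fin n)) := (B.filter fun z => z ∈ U).biUnion fun z =>
    (powersetCard q U).filter fun Y => {z} ⊆ Y with hC
  have h1 : powersetCard q U ⊆ (gd q H B x y ∪ Lk q H x y) ∪ C := by
    intro Y hY
    rw [mem_union, mem_union]
    have hY' := mem_powersetCard.1 hY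
    by_cases h2 : ∀ z ∈ B, z ∉ Y
    · left
      by_cases h3 : insert x (insert y Y) ∈ H
      · right
        refine mem_filter.2 ⟨mem_powersetCard.2 ⟨subset_univ Y, hY'.2⟩, fun h => ?_, fun h => ?_, h3⟩
        · have h4 := hY'.1 h
          rw [hU] at h4
          exact (mem_erase.1 (mem_erase.1 h4).2).1 rfl
        · have h4 := hY'.1 h
          rw [hU] at h4
          exact (mem_erase.1 h4).1 rfl
      · left
        exact mem_filter.2 ⟨hY, h3, h2⟩
    · right
      push Not at h2
      obtain ⟨z, hz, hzY⟩ := h2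
      rw [hC, mem_biUnion]
      exact ⟨z, mem_filter.2 ⟨hz, hY'.1 hzY⟩, mem_filter.2 ⟨hY, singleton_subset_iff.2 hzY⟩⟩
  have h2 : C.card ≤ B.card * (n - 3).choose (q - 1) := by
    rw [hC]
    refine card_biUnion_le.trans ?_
    have h3 : ∀ z ∈ B.filter fun z => z ∈ U, ((powersetCard q U).filter fun Y => {z} ⊆ Y).card =
        (n - 3).choose (q - 1) := by
      intro z hz
      rw [card_filter_powersetCard_subset {z} U q (singleton_subset_iff.2 (mem_filter.1 hz).2)
        (by rw [card_singleton]; exact hq), hUc, card_singleton]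
      congr 1
    rw [sum_congr rfl h3, sum_const, smul_eq_mul]
    exact Nat.mul_le_mul_right _ (card_filter_le _ _)
  have h3 := (card_le_card h1).trans (card_union_le _ _)
  rw [card_powersetCard, hUc] at h3
  have h4 := card_union_le (gd q H B x y) (Lk q H x y)
  omega

lemma sum_gd (B : Finset (Fin n)) (x : Fin n) :
    ∑ y ∈ B.erase x, (gd q H B x y).card ≤ (Miss q H x).card := by
  rw [← card_sigma]
  refine card_le_card_of_injOn (fun p => insert p.1 p.2) ?_ ?_
  · rintro ⟨y, Y⟩ hp
    rw [mem_coe, mem_sigma] at hp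
    obtain ⟨hy, hY⟩ := hp
    simp only at hy hY
    unfold gd at hY
    rw [mem_filter, mem_powersetCard] at hY
    obtain ⟨⟨hYU, hYc⟩, hYH, hYB⟩ := hY
    have hyY : y ∉ Y := fun h => (mem_erase.1 (hYU h)).1 rfl
    have hxY : x ∉ Y := fun h => (mem_erase.1 (mem_erase.1 (hYU h)).2).1 rfl
    rw [mem_coe]
    unfold Miss
    rw [mem_filter, mem_powersetCard]
    refine ⟨⟨subset_univ _, by rw [card_insert_of_notMem hyY, hYc]⟩, ?_, hYH⟩
    rw [mem_insert]
    rintro (h | h)
    · exact (mem_erase.1 hy).1 h.symm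
    · exact hxY h
  · rintro ⟨y, Y⟩ hp ⟨y', Y'⟩ hp' heq
    rw [mem_coe, mem_sigma] at hp hp'
    obtain ⟨hy, hY⟩ := hp
    obtain ⟨hy', hY'⟩ := hp'
    simp only at hy hY hy' hY' heq
    unfold gd at hY hY'
    rw [mem_filter, mem_powersetCard] at hY hY'
    have hyY : y ∉ Y := fun h => (mem_erase.1 (hY.1.1 h)).1 rfl
    have hyY' : y' ∉ Y' := fun h => (mem_erase.1 (hY'.1.1 h)).1 rfl
    have h1 : y ∈ insert y' Y' := heq ▸ mem_insert_self y Y
    have h2 : y = y' := by
      rcases mem_insert.1 h1 with h | h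
      · exact h
      · exact absurd h (hY'.2.2 y (mem_of_mem_erase hy))
    subst h2
    have h3 : Y = Y' := by
      rw [← erase_insert hyY, ← erase_insert hyY', heq]
    rw [h3]

/-- **points of large degree have smaller degree if there are many of them** -/
lemma card_Miss (hq : 1 ≤ q) (B : Finset (Fin n)) {ρ : ℝ} (x : Fin n)
    (hρ : ∀ y ∈ B.erase x, ((Lk q H x y).card : ℝ) ≤ ρ) :
    ((B.erase x).card : ℝ) * (((n - 2).choose q : ℝ) - ρ -
      (B.card : ℝ) * ((n - 3).choose (q - 1) : ℝ)) ≤ (Miss q H x).card := by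
  have h1 : ((∑ y ∈ B.erase x, (gd q H B x y).card : ℕ) : ℝ) ≤ (Miss q H x).card := by
    exact_mod_cast sum_gd B x
  refine le_trans ?_ h1
  rw [Nat.cast_sum]
  calc ((B.erase x).card : ℝ) * (((n - 2).choose q : ℝ) - ρ - (B.card : ℝ) * ((n - 3).choose (q - 1) : ℝ))
      = ∑ _y ∈ B.erase x, (((n - 2).choose q : ℝ) - ρ - (B.card : ℝ) * ((n - 3).choose (q - 1) : ℝ)) := by
        rw [sum_const, nsmul_eq_mul]
    _ ≤ ∑ y ∈ B.erase x, ((gd q H B x y).card : ℝ) := by
        refine sum_le_sum fun y hy => ?_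
        have h2 : ((n - 2).choose q : ℝ) ≤ ((gd q H B x y).card : ℝ) + (Lk q H x y).card +
            (B.card : ℝ) * ((n - 3).choose (q - 1) : ℝ) := by
          exact_mod_cast card_gd (H := H) hq B (mem_erase.1 hy).1
        have h3 := hρ y hy
        linarith

end links

end Pool.Agent.U946.DN
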