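import Pool.Agent.U946.DN

/-!
# The upper bound for the sums of the powers of the degrees
-/

set_option autoImplicit false
open Finset

namespace Pool.Agent.U946.DN

/-- the normalised sum of the `p`-th powers of the degrees -/
noncomputable def nrm {n : ℕ} (r : ℕ) (H : Finset (Finset (Fin n))) (p : ℝ) : ℝ :=
  (∑ x : Fin n, ((deg H x : ℝ) / ((n - 1).choose (r - 1) : ℝ)) ^ p) / n

lemma ratio {τ : ℝ} (hτ0 : 0 < τ) (hτ1 : τ ≤ 1) {N q : ℕ} (h : (3 / τ + 1) * q ≤ N) :
    ((N + 2).choose q : ℝ) ≤ (1 + τ) * (N.choose q : ℝ) := by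
  have hqN : q ≤ N := by
    have h1 : (q : ℝ) ≤ N := by
      have : (1 : ℝ) * q ≤ (3 / τ + 1) * q := by
        refine mul_le_mul_of_nonneg_right ?_ (by positivity)
        have : 0 ≤ 3 / τ := by positivity
        linarith
      linarith
    exact_mod_cast h1
  have step : ∀ M : ℕ, N ≤ M → ((M + 1).choose q : ℝ) ≤ (1 + τ / 3) * (M.choose q : ℝ) := by
    intro M hM
    have e1 := Nat.choose_mul_succ_eq M q
    have e2 : (M.choose q : ℝ) * ((M : ℝ) + 1) = ((M + 1).choose q : ℝ) * ((M : ℝ) + 1 - q) := by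
      have e3 : ((M + 1 - q : ℕ) : ℝ) = (M : ℝ) + 1 - q := by
        rw [Nat.cast_sub (by omega)]; push_cast; ring
      have e4 : (M.choose q : ℝ) * ((M + 1 : ℕ) : ℝ) = ((M + 1).choose q : ℝ) * ((M + 1 - q : ℕ) : ℝ) := by
        exact_mod_cast e1
      rw [e3] at e4
      push_cast at e4
      exact e4
    have hM' : (N : ℝ) ≤ M := by exact_mod_cast hM
    have h2 : 3 / τ * q ≤ (M : ℝ) + 1 - q := by linarith
    have h3 : (q : ℝ) ≤ τ / 3 * ((M : ℝ) + 1 - q) := by
      have h3 : τ / 3 * (3 / τ * q) = q := by field_simp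
      calc (q : ℝ) = τ / 3 * (3 / τ * q) := h3.symm
        _ ≤ τ / 3 * ((M : ℝ) + 1 - q) := mul_le_mul_of_nonneg_left h2 (by positivity)
    have h4 : (0 : ℝ) < (M : ℝ) + 1 - q := by
      have : (q : ℝ) ≤ M := by exact_mod_cast hqN.trans hM
      linarith
    refine le_of_mul_le_mul_right ?_ h4
    rw [← e2]
    have h5 : (0 : ℝ) ≤ M.choose q := by positivity
    have h6 : (M : ℝ) + 1 ≤ (1 + τ / 3) * ((M : ℝ) + 1 - q) := by linarith
    calc (M.choose q : ℝ) * ((M : ℝ) + 1) ≤ (M.choose q : ℝ) * ((1 + τ / 3) * ((M : ℝ) + 1 - q)) :=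
          mul_le_mul_of_nonneg_left h6 h5
      _ = _ := by ring
  have h1 := step N le_rfl
  have h2 := step (N + 1) (Nat.le_succ N)
  have h3 : (0 : ℝ) ≤ N.choose q := by positivity
  calc ((N + 2).choose q : ℝ) ≤ (1 + τ / 3) * ((N + 1).choose q : ℝ) := h2
    _ ≤ (1 + τ / 3) * ((1 + τ / 3) * (N.choose q : ℝ)) := by gcongr
    _ = ((1 + τ / 3) * (1 + τ / 3)) * (N.choose q : ℝ) := by ring
    _ ≤ (1 + τ) * (N.choose q : ℝ) := by
        refine mul_le_mul_of_nonneg_right ?_ h3
        nlinarith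

/-- `t exp (- t) ≤ exp (- 1)` -/
lemma t_exp (t : ℝ) : t * Real.exp (-t) ≤ Real.exp (-1) := by
  have h1 := Real.add_one_le_exp (t - 1)
  have h2 : Real.exp (t - 1) * Real.exp (-t) = Real.exp (-1) := by
    rw [← Real.exp_add]; congr 1; ring
  have h3 := Real.exp_pos (-t)
  nlinarith

lemma fin1 {b n p lam : ℝ} (hn : 0 < n) (hp : 0 < p) (hl : 0 < lam) :
    b * Real.exp (-(p * ((b - 1) * lam / n))) ≤ n / (p * lam) * Real.exp (-1) * Real.exp (p * lam / n) := by
  have h1 : Real.exp (-(p * ((b - 1) * lam / n))) =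
      Real.exp (-(p * lam * b / n)) * Real.exp (p * lam / n) := by
    rw [← Real.exp_add]
    congr 1
    field_simp
    ring
  have h2 : b * Real.exp (-(p * lam * b / n)) ≤ n / (p * lam) * Real.exp (-1) := by
    have h3 : b * Real.exp (-(p * lam * b / n)) =
        n / (p * lam) * (p * lam * b / n * Real.exp (-(p * lam * b / n))) := by
      field_simp
    rw [h3]
    exact mul_le_mul_of_nonneg_left (t_exp _) (by positivity)
  rw [h1, ← mul_assoc]
  exact mul_le_mul_of_nonneg_right h2 (Real.exp_pos _).le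

lemma fin2 {n p lam E e1 F : ℝ} (hn : 0 < n) (hp : 0 < p) (hl : 0 < lam) :
    n * E + n / (p * lam) * e1 * F = (E + e1 / (p * lam) * F) * n := by
  field_simp

/-- **the upper bound** -/
theorem upper_core {q : ℕ} (hq : 1 ≤ q) {π κ : ℝ} (hπ : HasDensity q (q + 1) π) (hκ0 : 0 < κ)
    (hκ : κ < 1 - π) : ∃ s : ℝ, 0 < s ∧ ∃ N : ℕ, ∀ n ≥ N, ∀ H : Finset (Finset (Fin n)),
      Free (q + 2) (q + 3) H → ∀ p : ℝ, 0 < p → nrm (q + 2) H p ≤
        Real.exp (-(p * s)) + Real.exp (-1) / (p * ((q + 1) * κ)) * Real.exp (p * ((q + 1) * κ) / n) := by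
  have hπ0 := density_nonneg hπ
  set τ : ℝ := (1 - π - κ) / 6 with hτ
  have hτ0 : 0 < τ := by rw [hτ]; linarith
  have hτ1 : τ ≤ 1 := by rw [hτ]; linarith
  have hπ1 : π ≤ 1 := by linarith
  have hqr : (1 : ℝ) ≤ q := by exact_mod_cast hq
  obtain ⟨m, hm, hmq⟩ : ∃ m : ℕ, (ex m q (q + 1) : ℝ) / (m.choose q : ℝ) < π + τ ∧ q + 1 ≤ m :=
    ((hπ.eventually (gt_mem_nhds (show π < π + τ by linarith))).and
      (Filter.eventually_ge_atTop (q + 1))).exists
  set η : ℝ := τ / (2 * q) with hη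
  have hη0 : 0 < η := by positivity
  set cm : ℝ := (m.choose (q + 1) : ℝ) with hcm
  have hcm0 : 0 < cm := by rw [hcm]; exact_mod_cast Nat.choose_pos hmq
  set s : ℝ := min (τ / (2 * cm)) (η * ((q + 1) * κ) / 4) with hs
  have hs0 : 0 < s := lt_min (by positivity) (by positivity)
  have hs1 : 2 * s * cm ≤ τ := by
    have : s ≤ τ / (2 * cm) := min_le_left _ _
    rw [le_div_iff₀ (by positivity)] at this
    linarith
  have hs2 : s ≤ η * ((q + 1) * κ) / 4 := min_le_right _ _
  refine ⟨s, hs0, m + 4 + ⌈4 / η⌉₊ + ⌈(3 / τ + 1) * q⌉₊ + 2, fun n hn H hH p hp => ?_⟩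
  have hnm : m ≤ n := by omega
  have hn4 : 4 ≤ n := by omega
  have hnη : 4 / η ≤ n := (Nat.le_ceil _).trans (by exact_mod_cast (by omega : ⌈4 / η⌉₊ ≤ n))
  have hnτ : (3 / τ + 1) * q ≤ ((n - 2 : ℕ) : ℝ) :=
    (Nat.le_ceil _).trans (by exact_mod_cast (by omega : ⌈(3 / τ + 1) * q⌉₊ ≤ n - 2))
  have hn0 : (0 : ℝ) < n := by exact_mod_cast (by omega : 0 < n)
  have hn4' : (4 : ℝ) ≤ n := by exact_mod_cast hn4
  have hnq : q ≤ n - 2 := by
    have h1 : (q : ℝ) ≤ ((n - 2 : ℕ) : ℝ) := by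
      have : (1 : ℝ) * q ≤ (3 / τ + 1) * q := by
        refine mul_le_mul_of_nonneg_right ?_ (by positivity)
        have : 0 ≤ 3 / τ := by positivity
        linarith
      linarith
    exact_mod_cast h1
  -- the binomial coefficients
  set c : ℝ := ((n - 2).choose q : ℝ) with hc
  have hc0 : 0 < c := by rw [hc]; exact_mod_cast Nat.choose_pos hnq
  set C : ℝ := ((n - 1).choose (q + 1) : ℝ) with hC
  have hC0 : 0 < C := by rw [hC]; exact_mod_cast Nat.choose_pos (by omega)
  have e1 : (n.choose q : ℝ) ≤ (1 + τ) * c := by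
    have h1 := ratio hτ0 hτ1 hnτ
    rw [show n - 2 + 2 = n by omega] at h1
    exact h1
  have e2 : ((n : ℝ) - 2) * ((n - 3).choose (q - 1) : ℝ) = c * q := by
    have h1 := Nat.add_one_mul_choose_eq (n - 3) (q - 1)
    rw [show n - 3 + 1 = n - 2 by omega, show q - 1 + 1 = q by omega] at h1
    have h2 : ((n - 2 : ℕ) : ℝ) * ((n - 3).choose (q - 1) : ℝ) = c * q := by
      rw [hc]; exact_mod_cast h1
    rwa [Nat.cast_sub (by omega)] at h2
  have e3 : ((n : ℝ) - 1) * c = C * (q + 1) := by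
    have h1 := Nat.add_one_mul_choose_eq (n - 2) q
    rw [show n - 2 + 1 = n - 1 by omega] at h1
    have h2 : ((n - 1 : ℕ) : ℝ) * c = C * (q + 1) := by
      rw [hc, hC]; exact_mod_cast h1
    rwa [Nat.cast_sub (by omega), Nat.cast_one] at h2
  -- the points of large degree
  set B : Finset (Fin n) := univ.filter fun x => ((Miss q H x).card : ℝ) ≤ s * C with hB
  have hmain : ∀ B' ⊆ B, (B'.card : ℝ) ≤ η * n → ∀ x ∈ B,
      ((B'.card : ℝ) - 1) * ((q + 1) * κ) / n ≤ ((Miss q H x).card : ℝ) / C := by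
    intro B' hB' hb' x hx
    rcases B'.eq_empty_or_nonempty with h0 | h0
    · rw [h0, card_empty, Nat.cast_zero]
      have h1 : (0 - 1) * ((q + 1) * κ) / n ≤ 0 := by
        refine div_nonpos_of_nonpos_of_nonneg ?_ hn0.le
        have : 0 ≤ ((q : ℝ) + 1) * κ := by positivity
        linarith
      exact h1.trans (by positivity)
    have hb1 : (1 : ℝ) ≤ B'.card := by exact_mod_cast card_pos.2 h0
    have h1 := card_Miss (H := H) hq B' (ρ := (π + 2 * τ) * ((1 + τ) * c)) x (fun y hy => by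
      have h2 := card_Lk hq hH hmq hnm (s := s) (mem_erase.1 hy).1.symm (mem_filter.1 hx).2
        (mem_filter.1 (hB' (mem_of_mem_erase hy))).2 hs0.le
      refine h2.trans ?_
      have h3 : (ex m q (q + 1) : ℝ) / (m.choose q : ℝ) + 2 * s * (m.choose (q + 1) : ℝ) ≤ π + 2 * τ := by
        rw [← hcm]; linarith
      calc ((ex m q (q + 1) : ℝ) / (m.choose q : ℝ) + 2 * s * (m.choose (q + 1) : ℝ)) * (n.choose q : ℝ)
          ≤ (π + 2 * τ) * (n.choose q : ℝ) := by gcongr
        _ ≤ (π + 2 * τ) * ((1 + τ) * c) := by gcongr)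
    rw [← hc] at h1
    have h2 : (B'.card : ℝ) * ((n - 3).choose (q - 1) : ℝ) ≤ τ * c := by
      have h3 : (0 : ℝ) < (n : ℝ) - 2 := by linarith
      have h4 : (B'.card : ℝ) * ((n - 3).choose (q - 1) : ℝ) = (B'.card : ℝ) * (c * q) / ((n : ℝ) - 2) := by
        rw [← e2]; field_simp
      rw [h4, div_le_iff₀ h3]
      have h5 : (B'.card : ℝ) * (c * q) ≤ η * n * (c * q) := by gcongr
      refine h5.trans ?_
      have h6 : η * n * (c * q) = τ * c * (n / 2) := by
        rw [hη]; field_simp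
      rw [h6]
      gcongr
      linarith
    have h3 : κ * c ≤ c - (π + 2 * τ) * ((1 + τ) * c) - (B'.card : ℝ) * ((n - 3).choose (q - 1) : ℝ) := by
      have h4 : κ = 1 - π - 6 * τ := by rw [hτ]; ring
      have h5 : (π + 2 * τ) * (1 + τ) ≤ π + 5 * τ := by nlinarith
      have h6 : (π + 2 * τ) * ((1 + τ) * c) ≤ (π + 5 * τ) * c := by
        rw [← mul_assoc]; gcongr
      rw [h4]
      linarith
    have h4 : (B'.card : ℝ) - 1 ≤ (B'.erase x).card := by
      have := pred_card_le_card_erase (s := B') (a := x)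
      have h5 : ((B'.card - 1 : ℕ) : ℝ) ≤ (B'.erase x).card := by exact_mod_cast this
      rwa [Nat.cast_sub (by exact_mod_cast hb1), Nat.cast_one] at h5
    have h5 : ((B'.card : ℝ) - 1) * (κ * c) ≤ (Miss q H x).card := by
      refine le_trans ?_ h1
      exact mul_le_mul h4 h3 (by positivity) (by positivity)
    rw [div_le_div_iff₀ hn0 hC0]
    have h6 : κ * c * n ≥ (q + 1) * κ * C := by
      have : κ * c * n ≥ κ * (((n : ℝ) - 1) * c) := by
        have : 0 ≤ κ * c := by positivity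
        linarith
      rw [e3] at this
      linarith
    calc ((B'.card : ℝ) - 1) * ((q + 1) * κ) * C = ((B'.card : ℝ) - 1) * ((q + 1) * κ * C) := by ring
      _ ≤ ((B'.card : ℝ) - 1) * (κ * c * n) := mul_le_mul_of_nonneg_left h6 (by linarith)
      _ = ((B'.card : ℝ) - 1) * (κ * c) * n := by ring
      _ ≤ (Miss q H x).card * n := mul_le_mul_of_nonneg_right h5 hn0.le
  -- there are few of them
  have hfew : (B.card : ℝ) ≤ η * n := by
    by_contra hcon
    push Not at hcon
    have h1 : ⌊η * n⌋₊ ≤ B.card := by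
      have := Nat.floor_le (by positivity : 0 ≤ η * (n : ℝ))
      have h2 : ((⌊η * n⌋₊ : ℕ) : ℝ) ≤ B.card := by linarith
      exact_mod_cast h2
    obtain ⟨B', hB', hcard⟩ := exists_subset_card_eq h1
    have h2 : (0 : ℝ) < B.card := lt_of_le_of_lt (by positivity) hcon
    obtain ⟨x, hx⟩ := card_pos.1 (by exact_mod_cast h2 : 0 < B.card)
    have h3 := hmain B' hB' (by rw [hcard]; exact Nat.floor_le (by positivity)) x hx
    have h4 : ((Miss q H x).card : ℝ) / C ≤ s := by
      rw [div_le_iff₀ hC0]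
      exact (mem_filter.1 hx).2
    have h5 := Nat.lt_floor_add_one (η * (n : ℝ))
    rw [← hcard] at h5
    have h6 : 4 ≤ η * n := by
      rw [div_le_iff₀ hη0] at hnη
      linarith
    have h7 : η * ((q + 1) * κ) / 2 ≤ ((B'.card : ℝ) - 1) * ((q + 1) * κ) / n := by
      rw [div_le_div_iff₀ (by norm_num) hn0]
      have h8 : η * n ≤ ((B'.card : ℝ) - 1) * 2 := by linarith
      have h9 : 0 ≤ ((q : ℝ) + 1) * κ := by positivity
      calc η * ((q + 1) * κ) * n = (η * n) * ((q + 1) * κ) := by ring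
        _ ≤ (((B'.card : ℝ) - 1) * 2) * ((q + 1) * κ) := mul_le_mul_of_nonneg_right h8 h9
        _ = _ := by ring
    have h8 : 0 < η * ((q + 1) * κ) := by positivity
    linarith
  -- the sum
  have hdeg : ∀ x : Fin n, (deg H x : ℝ) / C = 1 - ((Miss q H x).card : ℝ) / C := by
    intro x
    have h1 : (deg H x : ℝ) + (Miss q H x).card = C := by
      rw [hC]; exact_mod_cast deg_add hH x
    field_simp
    linarith
  have hpt : ∀ x : Fin n, ∀ v : ℝ, v ≤ ((Miss q H x).card : ℝ) / C →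
      ((deg H x : ℝ) / C) ^ p ≤ Real.exp (-(p * v)) := by
    intro x v hv
    have h1 : (0 : ℝ) ≤ (deg H x : ℝ) / C := by positivity
    have h2 : (deg H x : ℝ) / C ≤ Real.exp (-v) := by
      have := Real.add_one_le_exp (-v)
      rw [hdeg x]
      linarith
    calc ((deg H x : ℝ) / C) ^ p ≤ (Real.exp (-v)) ^ p := Real.rpow_le_rpow h1 h2 hp.le
      _ = Real.exp (-(p * v)) := by
          rw [← Real.exp_mul]
          congr 1
          ring
  have hsum : ∑ x : Fin n, ((deg H x : ℝ) / C) ^ p ≤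
      n * Real.exp (-(p * s)) + B.card * Real.exp (-(p * (((B.card : ℝ) - 1) * ((q + 1) * κ) / n))) := by
    rw [← sum_filter_add_sum_filter_not univ (fun x => ((Miss q H x).card : ℝ) ≤ s * C)]
    rw [add_comm (n * Real.exp (-(p * s)))]
    refine add_le_add ?_ ?_
    · rw [← nsmul_eq_mul, ← sum_const]
      refine sum_le_sum fun x hx => hpt x _ (hmain B subset_rfl hfew x hx)
    · calc ∑ x ∈ univ.filter (fun x => ¬ ((Miss q H x).card : ℝ) ≤ s * C), ((deg H x : ℝ) / C) ^ p
          ≤ ∑ _x ∈ univ.filter (fun x => ¬ ((Miss q H x).card : ℝ) ≤ s * C), Real.exp (-(p * s)) := by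
            refine sum_le_sum fun x hx => hpt x s ?_
            have h1 := (mem_filter.1 hx).2
            push Not at h1
            rw [le_div_iff₀ hC0]
            exact h1.le
        _ ≤ ∑ _x : Fin n, Real.exp (-(p * s)) :=
            sum_le_univ_sum_of_nonneg fun x => (Real.exp_pos _).le
        _ = n * Real.exp (-(p * s)) := by
            rw [sum_const, card_univ, Fintype.card_fin, nsmul_eq_mul]
  have hlam : 0 < ((q : ℝ) + 1) * κ := by positivity
  set lam : ℝ := ((q : ℝ) + 1) * κ with hlamd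
  unfold nrm
  rw [show q + 2 - 1 = q + 1 by omega, ← hC, div_le_iff₀ hn0]
  refine hsum.trans ?_
  have h1 := fin1 (b := (B.card : ℝ)) hn0 hp hlam
  refine (add_le_add_right h1 _).trans (le_of_eq ?_)
  exact fin2 hn0 hp hlam

end Pool.Agent.U946.DN
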