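import Pool.Agent.U946.DN2

/-!
# The construction
-/

set_option autoImplicit false
open Finset

namespace Pool.Agent.U946.DN

/-- the edges with one point in `B`, and those with two points in `B` and the others in a member of `L` -/
def H0 {n : ℕ} (q : ℕ) (B : Finset (Fin n)) (L : Finset (Finset (Fin n))) : Finset (Finset (Fin n)) :=
  (powersetCard (q + 2) univ).filter fun e => (e ∩ B).card = 1 ∨ ((e ∩ B).card = 2 ∧ e \ B ∈ L)

lemma free_H0 {n q : ℕ} (hq : 1 ≤ q) (B : Finset (Fin n)) (L : Finset (Finset (Fin n)))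
    (hL : FreeOn (univ \ B) q (q + 1) L) : Free (q + 2) (q + 3) (H0 q B L) := by
  refine ⟨fun e he => (mem_powersetCard.1 (mem_filter.1 he).1).2, fun S hS => ?_⟩
  by_contra hc
  push Not at hc
  have hH : ∀ a ∈ S, ((S.erase a ∩ B).card = 1 ∨ ((S.erase a ∩ B).card = 2 ∧ S.erase a \ B ∈ L)) :=
    fun a ha => (mem_filter.1 (hc _ (erase_subset a S) (by rw [card_erase_of_mem ha, hS]; rfl))).2
  have hne : S.Nonempty := card_pos.1 (by omega)
  obtain ⟨a0, ha0⟩ := hne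
  have hi : ∃ a ∈ S, a ∈ B := by
    have h1 := hH a0 ha0
    have h2 : 0 < (S.erase a0 ∩ B).card := by omega
    obtain ⟨a, ha⟩ := card_pos.1 h2
    rw [mem_inter, mem_erase] at ha
    exact ⟨a, ha.1.2, ha.2⟩
  obtain ⟨a, haS, haB⟩ := hi
  have h1 := hH a haS
  have h2 : (S.erase a ∩ B).card + 1 = (S ∩ B).card := by
    rw [erase_inter, card_erase_of_mem (mem_inter.2 ⟨haS, haB⟩)]
    have : 0 < (S ∩ B).card := card_pos.2 ⟨a, mem_inter.2 ⟨haS, haB⟩⟩
    omega
  have h3 : (S ∩ B).card + (S \ B).card = q + 3 := by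
    rw [← hS, card_inter_add_card_sdiff]
  have hout : ∀ z ∈ S \ B, (S.erase z ∩ B).card = (S ∩ B).card := by
    intro z hz
    rw [erase_inter, erase_eq_of_notMem]
    intro h
    exact (mem_sdiff.1 hz).2 (mem_inter.1 h).2
  rcases (by omega : (S ∩ B).card = 2 ∨ (S ∩ B).card = 3) with h4 | h4
  · obtain ⟨Y, hY, hYc, hYL⟩ := hL.2 (S \ B) (sdiff_subset_sdiff (subset_univ S) (subset_refl B)) (by omega)
    obtain ⟨z, hz, hzY⟩ : ∃ z ∈ S \ B, z ∉ Y := by
      by_contra hcc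
      push Not at hcc
      have := card_le_card hcc
      omega
    have h5 : Y = (S \ B).erase z := by
      refine eq_of_subset_of_card_le (fun b hb => mem_erase.2 ⟨fun h => hzY (h ▸ hb), hY hb⟩) ?_
      rw [card_erase_of_mem hz, hYc]
      omega
    have h6 := hH z (mem_sdiff.1 hz).1
    rw [hout z hz, h4] at h6
    rcases h6 with h6 | h6
    · omega
    · rw [erase_sdiff_comm, ← h5] at h6
      exact hYL h6.2
  · have h5 : 0 < (S \ B).card := by omega
    obtain ⟨z, hz⟩ := card_pos.1 h5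
    have h6 := hH z (mem_sdiff.1 hz).1
    rw [hout z hz] at h6
    omega

lemma deg_H0 {n q : ℕ} (B : Finset (Fin n)) (L : Finset (Finset (Fin n)))
    (hL : FreeOn (univ \ B) q (q + 1) L) {x : Fin n} (hx : x ∈ B) :
    (n - B.card).choose (q + 1) + (B.card - 1) * L.card ≤ deg (H0 q B L) x := by
  have hA : (univ \ B).card = n - B.card := by
    rw [card_sdiff_of_subset (subset_univ B), card_univ, Fintype.card_fin]
  set F1 : Finset (Finset (Fin n)) := (powersetCard (q + 1) (univ \ B)).image (insert x) with hF1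
  set F2 : Finset (Finset (Fin n)) := ((B.erase x) ×ˢ L).image fun p => insert x (insert p.1 p.2) with hF2
  have hint : ∀ Z : Finset (Fin n), Z ⊆ univ \ B → Z ∩ B = ∅ := by
    intro Z hZ
    rw [← disjoint_iff_inter_eq_empty, disjoint_left]
    intro z hz hzB
    exact (mem_sdiff.1 (hZ hz)).2 hzB
  have hnot : ∀ Z : Finset (Fin n), Z ⊆ univ \ B → ∀ y ∈ B, y ∉ Z := fun Z hZ y hy h =>
    (mem_sdiff.1 (hZ h)).2 hy
  have hsd : ∀ Z : Finset (Fin n), Z ⊆ univ \ B → Z \ B = Z := fun Z hZ =>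
    sdiff_eq_self_of_disjoint (disjoint_iff_inter_eq_empty.2 (hint Z hZ))
  have c1 : F1.card = (n - B.card).choose (q + 1) := by
    rw [hF1, card_image_of_injOn, card_powersetCard, hA]
    intro Z hZ Z' hZ' h
    rw [mem_coe, mem_powersetCard] at hZ hZ'
    have h1 : (insert x Z).erase x = (insert x Z').erase x := congrArg (fun s => s.erase x) h
    rwa [erase_insert (hnot Z hZ.1 x hx), erase_insert (hnot Z' hZ'.1 x hx)] at h1
  have c2 : F2.card = (B.card - 1) * L.card := by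
    rw [hF2, card_image_of_injOn, card_product, card_erase_of_mem hx]
    rintro ⟨y, Y⟩ h1 ⟨y', Y'⟩ h2 h
    rw [mem_coe, mem_product] at h1 h2
    simp only at h1 h2 h
    have hy := mem_erase.1 h1.1
    have hy' := mem_erase.1 h2.1
    have hY := (hL.1 Y h1.2).1
    have hY' := (hL.1 Y' h2.2).1
    have e1 : insert x (insert y Y) ∩ B = {x, y} := by
      rw [insert_inter_of_mem hx, insert_inter_of_mem hy.2, hint Y hY]
      rfl
    have e2 : insert x (insert y' Y') ∩ B = {x, y'} := by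
      rw [insert_inter_of_mem hx, insert_inter_of_mem hy'.2, hint Y' hY']
      rfl
    have e3 : ({x, y} : Finset (Fin n)) = {x, y'} := by rw [← e1, ← e2, h]
    have e4 : y = y' := by
      have h3 : y ∈ ({x, y'} : Finset (Fin n)) := e3 ▸ (by simp)
      rw [mem_insert, mem_singleton] at h3
      rcases h3 with h3 | h3
      · exact absurd h3 hy.1
      · exact h3
    subst e4
    have e5 : insert x (insert y Y) \ B = insert x (insert y Y') \ B := by rw [h]
    have e6 : ∀ Z : Finset (Fin n), Z ⊆ univ \ B → insert x (insert y Z) \ B = Z := by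
      intro Z hZ
      rw [insert_sdiff_of_mem _ hx, insert_sdiff_of_mem _ hy.2, hsd Z hZ]
    rw [e6 Y hY, e6 Y' hY'] at e5
    rw [e5]
  have hdisj : Disjoint F1 F2 := by
    rw [disjoint_left]
    intro e h1 h2
    rw [hF1, mem_image] at h1
    rw [hF2, mem_image] at h2
    obtain ⟨Z, hZ, rfl⟩ := h1
    obtain ⟨⟨y, Y⟩, hy, h⟩ := h2
    rw [mem_product] at hy
    simp only at hy h
    have hy1 := mem_erase.1 hy.1
    have e1 : insert x (insert y Y) ∩ B = {x, y} := by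
      rw [insert_inter_of_mem hx, insert_inter_of_mem hy1.2, hint Y (hL.1 Y hy.2).1]
      rfl
    have e2 : insert x Z ∩ B = {x} := by
      rw [insert_inter_of_mem hx, hint Z (mem_powersetCard.1 hZ).1]
      rfl
    rw [h, e2] at e1
    have e3 := congrArg card e1
    rw [card_singleton, card_pair (Ne.symm hy1.1)] at e3
    omega
  rw [← c1, ← c2, ← card_union_of_disjoint hdisj]
  unfold deg
  refine card_le_card fun e he => ?_
  rw [mem_filter]
  rcases mem_union.1 he with h | h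
  · rw [hF1, mem_image] at h
    obtain ⟨Z, hZ, rfl⟩ := h
    rw [mem_powersetCard] at hZ
    refine ⟨mem_filter.2 ⟨mem_powersetCard.2 ⟨subset_univ _, ?_⟩, Or.inl ?_⟩, mem_insert_self _ _⟩
    · rw [card_insert_of_notMem (hnot Z hZ.1 x hx), hZ.2]
    · rw [insert_inter_of_mem hx, hint Z hZ.1]
      rfl
  · rw [hF2, mem_image] at h
    obtain ⟨⟨y, Y⟩, hy, rfl⟩ := h
    rw [mem_product] at hy
    simp only at hy ⊢
    have hy1 := mem_erase.1 hy.1
    have hY := hL.1 Y hy.2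
    have hyY := hnot Y hY.1 y hy1.2
    have hxY := hnot Y hY.1 x hx
    refine ⟨mem_filter.2 ⟨mem_powersetCard.2 ⟨subset_univ _, ?_⟩, Or.inr ⟨?_, ?_⟩⟩, mem_insert_self _ _⟩
    · rw [card_insert_of_notMem, card_insert_of_notMem hyY, hY.2]
      rw [mem_insert]
      rintro (h | h)
      · exact hy1.1 h.symm
      · exact hxY h
    · rw [insert_inter_of_mem hx, insert_inter_of_mem hy1.2, hint Y hY.1]
      exact card_pair (Ne.symm hy1.1)
    · rw [insert_sdiff_of_mem _ hx, insert_sdiff_of_mem _ hy1.2, hsd Y hY.1]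
      exact hy.2

/-- the construction -/
lemma constr {n q b : ℕ} (hq : 1 ≤ q) (hb : b ≤ n) : ∃ H : Finset (Finset (Fin n)),
    Free (q + 2) (q + 3) H ∧ ∃ B : Finset (Fin n), B.card = b ∧ ∀ x ∈ B,
      (n - b).choose (q + 1) + (b - 1) * ex (n - b) q (q + 1) ≤ deg H x := by
  obtain ⟨B, -, hB⟩ := exists_subset_card_eq (s := (univ : Finset (Fin n))) (n := b)
    (by rw [card_univ, Fintype.card_fin]; exact hb)
  obtain ⟨L, hL, hLc⟩ := exists_freeOn (univ \ B) (Nat.le_succ q)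
  have hA : (univ \ B).card = n - b := by
    rw [card_sdiff_of_subset (subset_univ B), card_univ, Fintype.card_fin, hB]
  refine ⟨H0 q B L, free_H0 hq B L hL, B, hB, fun x hx => ?_⟩
  have h1 := deg_H0 B L hL hx
  rw [hB, hLc, hA] at h1
  exact h1

lemma pow_le_choose (a k : ℕ) : (((a + 1 - k : ℕ) : ℝ)) ^ k ≤ (k.factorial : ℝ) * (a.choose k : ℝ) := by
  have h1 := Nat.pow_sub_le_descFactorial a k
  rw [Nat.descFactorial_eq_factorial_mul_choose] at h1
  exact_mod_cast h1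

lemma choose_le_pow' (a k : ℕ) : (k.factorial : ℝ) * (a.choose k : ℝ) ≤ (a : ℝ) ^ k := by
  have h1 := Nat.descFactorial_le_pow a k
  rw [Nat.descFactorial_eq_factorial_mul_choose] at h1
  exact_mod_cast h1

/-- the degrees in the construction -/
lemma deg_ratio {n q b : ℕ} {π : ℝ} (hπ : HasDensity q (q + 1) π) (hb1 : 1 ≤ b)
    (hbn : b + q + 2 ≤ n) :
    (((n : ℝ) - b - q) / n) ^ (q + 1) + π * (q + 1) * (((b : ℝ) - 1) / n) * (((n : ℝ) - b - q) / n) ^ q ≤
      (((n - b).choose (q + 1) + (b - 1) * ex (n - b) q (q + 1) : ℕ) : ℝ) /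
        ((n - 1).choose (q + 1) : ℝ) := by
  have hπ0 := density_nonneg hπ
  have hn0 : (0 : ℝ) < n := by exact_mod_cast (by omega : 0 < n)
  have hC0 : (0 : ℝ) < ((n - 1).choose (q + 1) : ℝ) := by exact_mod_cast Nat.choose_pos (by omega)
  have hex := density_le (Nat.le_succ q) hπ (by omega : q + 1 ≤ n - b)
  have hc0 : (0 : ℝ) < ((n - b).choose q : ℝ) := by exact_mod_cast Nat.choose_pos (by omega)
  rw [le_div_iff₀ hc0] at hex
  have hf0 : (0 : ℝ) < (q.factorial : ℝ) := by exact_mod_cast Nat.factorial_pos q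
  have hf : ((q + 1).factorial : ℝ) = (q + 1) * q.factorial := by
    rw [Nat.factorial_succ]; push_cast; ring
  set α : ℝ := (n : ℝ) - b - q with hα
  have hα0 : 0 ≤ α := by
    have : (b : ℝ) + q + 2 ≤ n := by exact_mod_cast hbn
    rw [hα]; linarith
  have a1 : α ^ (q + 1) ≤ ((q + 1) * q.factorial : ℝ) * ((n - b).choose (q + 1) : ℝ) := by
    have h1 := pow_le_choose (n - b) (q + 1)
    rw [hf] at h1
    have h2 : ((n - b + 1 - (q + 1) : ℕ) : ℝ) = α := by
      rw [show n - b + 1 - (q + 1) = n - b - q by omega, Nat.cast_sub (by omega), Nat.cast_sub (by omega)]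
    rwa [h2] at h1
  have a2 : α ^ q ≤ (q.factorial : ℝ) * ((n - b).choose q : ℝ) := by
    refine le_trans ?_ (pow_le_choose (n - b) q)
    have h2 : ((n - b + 1 - q : ℕ) : ℝ) = α + 1 := by
      rw [Nat.cast_sub (by omega)]
      push_cast [Nat.cast_sub (by omega : b ≤ n)]
      rw [hα]; ring
    rw [h2]
    exact pow_le_pow_left₀ hα0 (by linarith) q
  have a3 : ((q + 1) * q.factorial : ℝ) * ((n - 1).choose (q + 1) : ℝ) ≤ (n : ℝ) ^ (q + 1) := by
    have h1 := choose_le_pow' (n - 1) (q + 1)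
    rw [hf] at h1
    refine h1.trans ?_
    have h2 : ((n - 1 : ℕ) : ℝ) ≤ n := by exact_mod_cast Nat.sub_le n 1
    exact pow_le_pow_left₀ (by positivity) h2 _
  have hb0 : (0 : ℝ) ≤ (b : ℝ) - 1 := by
    have : (1 : ℝ) ≤ b := by exact_mod_cast hb1
    linarith
  rw [le_div_iff₀ hC0]
  push_cast [Nat.cast_sub hb1]
  have e1 : ((α / n) ^ (q + 1) + π * (q + 1) * (((b : ℝ) - 1) / n) * (α / n) ^ q) =
      (α ^ (q + 1) + π * (q + 1) * ((b : ℝ) - 1) * α ^ q) / (n : ℝ) ^ (q + 1) := by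
    rw [div_pow, div_pow, pow_succ (n : ℝ) q]
    field_simp
  rw [e1, div_mul_eq_mul_div, div_le_iff₀ (by positivity)]
  have hX0 : 0 ≤ α ^ (q + 1) + π * (q + 1) * ((b : ℝ) - 1) * α ^ q := by positivity
  set F : ℝ := ((q : ℝ) + 1) * q.factorial with hF
  have hF0 : 0 < F := by positivity
  have b1 : α ^ (q + 1) + π * (q + 1) * ((b : ℝ) - 1) * α ^ q ≤
      F * (((n - b).choose (q + 1) : ℝ) + ((b : ℝ) - 1) * (ex (n - b) q (q + 1) : ℝ)) := by
    have h1 : π * (q + 1) * ((b : ℝ) - 1) * α ^ q ≤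
        π * (q + 1) * ((b : ℝ) - 1) * ((q.factorial : ℝ) * ((n - b).choose q : ℝ)) := by gcongr
    have h2 : π * (q + 1) * ((b : ℝ) - 1) * ((q.factorial : ℝ) * ((n - b).choose q : ℝ)) =
        F * ((b : ℝ) - 1) * (π * ((n - b).choose q : ℝ)) := by rw [hF]; ring
    have h3 : F * ((b : ℝ) - 1) * (π * ((n - b).choose q : ℝ)) ≤
        F * ((b : ℝ) - 1) * (ex (n - b) q (q + 1) : ℝ) := by gcongr
    linarith
  set D : ℝ := ((n - b).choose (q + 1) : ℝ) + ((b : ℝ) - 1) * (ex (n - b) q (q + 1) : ℝ) with hD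
  have hD0 : 0 ≤ D := by positivity
  calc (α ^ (q + 1) + π * (q + 1) * ((b : ℝ) - 1) * α ^ q) * ((n - 1).choose (q + 1) : ℝ)
      ≤ (F * D) * ((n - 1).choose (q + 1) : ℝ) := mul_le_mul_of_nonneg_right b1 hC0.le
    _ = D * (F * ((n - 1).choose (q + 1) : ℝ)) := by ring
    _ ≤ D * (n : ℝ) ^ (q + 1) := mul_le_mul_of_nonneg_left a3 hD0

/-- **the lower bound** -/
theorem lower_core {q : ℕ} (hq : 1 ≤ q) {π : ℝ} (hπ : HasDensity q (q + 1) π) {p β δ : ℝ} (hp : 0 < p)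
    (hβ0 : 0 < β) (hβ1 : β < 1) (hδ : 0 < δ) : ∃ N : ℕ, ∀ n ≥ N, ∃ H : Finset (Finset (Fin n)),
      Free (q + 2) (q + 3) H ∧
        β * ((1 - β) ^ (q + 1) + π * (q + 1) * β * (1 - β) ^ q) ^ p - δ ≤ nrm (q + 2) H p := by
  have hπ0 := density_nonneg hπ
  have hb : Filter.Tendsto (fun n : ℕ => (⌊β * (n : ℝ)⌋₊ : ℝ) / (n : ℝ)) Filter.atTop (nhds β) :=
    (tendsto_nat_floor_mul_div_atTop hβ0.le).comp tendsto_natCast_atTop_atTop
  have hinv : Filter.Tendsto (fun n : ℕ => 1 / (n : ℝ)) Filter.atTop (nhds 0) :=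
    tendsto_one_div_atTop_nhds_zero_nat
  have hbm : Filter.Tendsto (fun n : ℕ => (⌊β * (n : ℝ)⌋₊ : ℝ) / (n : ℝ) - 1 / (n : ℝ)) Filter.atTop
      (nhds (β - 0)) := hb.sub hinv
  have ham : Filter.Tendsto (fun n : ℕ => 1 - (⌊β * (n : ℝ)⌋₊ : ℝ) / (n : ℝ) - q * (1 / (n : ℝ))) Filter.atTop
      (nhds (1 - β - q * 0)) := (hb.const_sub 1).sub (hinv.const_mul (q : ℝ))
  rw [sub_zero] at hbm
  rw [mul_zero, sub_zero] at ham
  have hpos : 0 < (1 - β) ^ (q + 1) + π * (q + 1) * β * (1 - β) ^ q := by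
    have h1 : 0 < (1 - β) ^ (q + 1) := pow_pos (by linarith) _
    have h2 : 0 ≤ (1 - β) ^ q := pow_nonneg (by linarith) _
    have h3 : 0 ≤ π * (q + 1) * β := by positivity
    have h4 := mul_nonneg h3 h2
    linarith
  have hlim : Filter.Tendsto (fun n : ℕ => (⌊β * (n : ℝ)⌋₊ : ℝ) / (n : ℝ) *
      ((1 - (⌊β * (n : ℝ)⌋₊ : ℝ) / (n : ℝ) - q * (1 / (n : ℝ))) ^ (q + 1) +
        π * (q + 1) * ((⌊β * (n : ℝ)⌋₊ : ℝ) / (n : ℝ) - 1 / (n : ℝ)) *
        (1 - (⌊β * (n : ℝ)⌋₊ : ℝ) / (n : ℝ) - q * (1 / (n : ℝ))) ^ q) ^ p) Filter.atTop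
      (nhds (β * ((1 - β) ^ (q + 1) + π * (q + 1) * β * (1 - β) ^ q) ^ p)) := by
    refine hb.mul (((ham.pow (q + 1)).add ((hbm.const_mul (π * (q + 1))).mul (ham.pow q))).rpow_const ?_)
    exact Or.inl hpos.ne'
  have hev := hlim.eventually (lt_mem_nhds (show
    β * ((1 - β) ^ (q + 1) + π * (q + 1) * β * (1 - β) ^ q) ^ p - δ <
      β * ((1 - β) ^ (q + 1) + π * (q + 1) * β * (1 - β) ^ q) ^ p by linarith))
  obtain ⟨N, hN⟩ := Filter.eventually_atTop.1 hev
  refine ⟨N + ⌈1 / β⌉₊ + ⌈((q : ℝ) + 2) / (1 - β)⌉₊ + 1, fun n hn => ?_⟩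
  have h2 := (hN n (by omega)).le
  have hn0 : (0 : ℝ) < n := by exact_mod_cast (by omega : 0 < n)
  have hn1 : 1 / β ≤ n := (Nat.le_ceil _).trans (by exact_mod_cast (by omega : ⌈1 / β⌉₊ ≤ n))
  have hn2 : ((q : ℝ) + 2) / (1 - β) ≤ n :=
    (Nat.le_ceil _).trans (by exact_mod_cast (by omega : ⌈((q : ℝ) + 2) / (1 - β)⌉₊ ≤ n))
  rw [div_le_iff₀ hβ0] at hn1
  rw [div_le_iff₀ (by linarith)] at hn2
  set b : ℕ := ⌊β * (n : ℝ)⌋₊ with hbd
  have hb1 : (b : ℝ) ≤ β * n := Nat.floor_le (by positivity)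
  have hb2 : 1 ≤ b := Nat.le_floor (by rw [Nat.cast_one]; linarith)
  have hbn : b + q + 2 ≤ n := by
    have : (b : ℝ) + q + 2 ≤ n := by linarith
    exact_mod_cast this
  clear_value b
  obtain ⟨H, hH, B, hB, hdeg⟩ := constr (q := q) hq (by omega : b ≤ n)
  refine ⟨H, hH, h2.trans ?_⟩
  have h3 := deg_ratio hπ hb2 hbn
  have e1 : 1 - (b : ℝ) / (n : ℝ) - q * (1 / (n : ℝ)) = ((n : ℝ) - b - q) / n := by field_simp
  have e2 : (b : ℝ) / (n : ℝ) - 1 / (n : ℝ) = ((b : ℝ) - 1) / n := by ring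
  rw [e1, e2]
  have hα0 : 0 ≤ ((n : ℝ) - b - q) / n := by
    have : (b : ℝ) + q + 2 ≤ n := by exact_mod_cast hbn
    exact div_nonneg (by linarith) hn0.le
  have hb0 : 0 ≤ ((b : ℝ) - 1) / n := by
    have : (1 : ℝ) ≤ b := by exact_mod_cast hb2
    exact div_nonneg (by linarith) hn0.le
  set R : ℝ := (((n : ℝ) - b - q) / n) ^ (q + 1) + π * (q + 1) * (((b : ℝ) - 1) / n) *
    (((n : ℝ) - b - q) / n) ^ q with hR
  have hR0 : 0 ≤ R := by positivity
  unfold nrm
  rw [show q + 2 - 1 = q + 1 by omega, le_div_iff₀ hn0]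
  calc (b : ℝ) / n * R ^ p * n = b * R ^ p := by field_simp
    _ = ∑ _x ∈ B, R ^ p := by rw [sum_const, nsmul_eq_mul, hB]
    _ ≤ ∑ x ∈ B, ((deg H x : ℝ) / ((n - 1).choose (q + 1) : ℝ)) ^ p := by
        refine sum_le_sum fun x hx => Real.rpow_le_rpow hR0 (h3.trans ?_) hp.le
        refine div_le_div_of_nonneg_right ?_ (by positivity)
        exact_mod_cast hdeg x hx
    _ ≤ ∑ x, ((deg H x : ℝ) / ((n - 1).choose (q + 1) : ℝ)) ^ p :=
        sum_le_sum_of_subset_of_nonneg (subset_univ _) fun x _ _ => Real.rpow_nonneg (by positivity) _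

end Pool.Agent.U946.DN
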