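import Mathlib

/-!
# Pairs of large codegree in `K_4^3`-free 3-graphs

`E` is a symmetric ternary relation without four points all of whose triples are in it; `M E x y`
is the set of the `z` with `¬ E x y z`.
-/

set_option autoImplicit false
open Finset
open scoped Classical

namespace Pool.Agent.U946.LP

variable {V : Type} [Fintype V]

/-- a symmetric ternary relation without a complete set of four points -/
structure K4 (E : V → V → V → Prop) : Prop where
  sym1 : ∀ x y z, E x y z → E y x z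
  sym2 : ∀ x y z, E x y z → E x z y
  free : ∀ x y z w, E x y z → E x y w → E x z w → E y z w → False

/-- the points which do not form a triple with `x` and `y` -/
noncomputable def M (E : V → V → V → Prop) (x y : V) : Finset V := univ.filter fun z => ¬ E x y z

variable {E : V → V → V → Prop}

lemma mem_M {x y z : V} : z ∈ M E x y ↔ ¬ E x y z := by simp [M]

/-- two pairs of points -/
lemma four (h : K4 E) (x y z w : V) :
    z ∈ M E x y ∨ w ∈ M E x y ∨ x ∈ M E z w ∨ y ∈ M E z w := by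
  simp only [mem_M]
  by_contra hc
  push Not at hc
  obtain ⟨h1, h2, h3, h4⟩ := hc
  exact h.free x y z w h1 h2 (h.sym1 _ _ _ (h.sym2 _ _ _ h3)) (h.sym1 _ _ _ (h.sym2 _ _ _ h4))

/-- **the basic inequality** -/
lemma key (h : K4 E) (ψ : V → V → ℝ) (h0 : ∀ x y, 0 ≤ ψ x y) (hs : ∀ x y, ψ x y = ψ y x)
    {L D : ℝ} (hL0 : 0 ≤ L) (hD0 : 0 ≤ D) (hL : ∀ x y, ψ x y ≠ 0 → ((M E x y).card : ℝ) ≤ L)
    (hD : ∀ x, ∑ y, ψ x y ≤ D) : ∑ x, ∑ y, ψ x y ≤ 4 * L * D := by
  set u : V × V → ℝ := fun e => ψ e.1 e.2 with hu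
  set S : ℝ := ∑ e, u e with hS
  have hSe : ∑ x, ∑ y, ψ x y = S := by rw [hS, Fintype.sum_prod_type]
  rw [hSe]
  have hu0 : ∀ e, 0 ≤ u e := fun e => h0 _ _
  have hS0 : 0 ≤ S := sum_nonneg fun e _ => hu0 e
  set i : V × V → V → ℝ := fun e z => if z ∈ M E e.1 e.2 then 1 else 0 with hi
  have hi0 : ∀ e z, 0 ≤ i e z := by
    intro e z
    simp only [hi]
    split_ifs <;> norm_num
  set a : V × V → V × V → ℝ := fun e f => i e f.1 + i e f.2 with ha
  have ha0 : ∀ e f, 0 ≤ a e f := fun e f => add_nonneg (hi0 _ _) (hi0 _ _)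
  have h1 : ∀ e f, 1 ≤ a e f + a f e := by
    intro e f
    have h2 := hi0 e f.1
    have h3 := hi0 e f.2
    have h4 := hi0 f e.1
    have h5 := hi0 f e.2
    simp only [ha]
    rcases four h e.1 e.2 f.1 f.2 with h6 | h6 | h6 | h6
    · have : i e f.1 = 1 := by simp only [hi]; rw [if_pos h6]
      linarith
    · have : i e f.2 = 1 := by simp only [hi]; rw [if_pos h6]
      linarith
    · have : i f e.1 = 1 := by simp only [hi]; rw [if_pos h6]
      linarith
    · have : i f e.2 = 1 := by simp only [hi]; rw [if_pos h6]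
      linarith
  -- the row sums
  have hrow : ∀ e, u e * ∑ f, u f * a e f ≤ u e * (2 * (L * D)) := by
    intro e
    by_cases he : u e = 0
    · rw [he]; simp
    · refine mul_le_mul_of_nonneg_left ?_ (hu0 e)
      have hM : ((M E e.1 e.2).card : ℝ) ≤ L := hL _ _ he
      have hone : ∀ g : V → ℝ, (∀ z, g z ≤ D) → ∑ z, i e z * g z ≤ L * D := by
        intro g hg
        calc ∑ z, i e z * g z ≤ ∑ z, i e z * D :=
              sum_le_sum fun z _ => mul_le_mul_of_nonneg_left (hg z) (hi0 e z)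
          _ = ((M E e.1 e.2).card : ℝ) * D := by
              rw [← sum_mul]
              congr 1
              simp only [hi]
              rw [sum_ite_mem, univ_inter, sum_const, nsmul_eq_mul, mul_one]
          _ ≤ L * D := mul_le_mul_of_nonneg_right hM hD0
      have e1 : ∑ f, u f * a e f = ∑ z, i e z * (∑ w, ψ z w) + ∑ z, i e z * (∑ w, ψ w z) := by
        simp only [ha, hu, mul_add, sum_add_distrib]
        rw [Fintype.sum_prod_type, Fintype.sum_prod_type, sum_comm (f := fun x y => ψ x y * i e y)]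
        congr 1
        · refine sum_congr rfl fun z _ => ?_
          rw [mul_sum]
          exact sum_congr rfl fun w _ => mul_comm _ _
        · refine sum_congr rfl fun z _ => ?_
          rw [mul_sum]
          exact sum_congr rfl fun w _ => mul_comm _ _
      rw [e1]
      have e2 := hone (fun z => ∑ w, ψ z w) hD
      have e3 := hone (fun z => ∑ w, ψ w z) (fun z => by
        rw [sum_congr rfl fun w _ => hs w z]
        exact hD z)
      linarith
  have hsq : S * S ≤ 4 * (L * D) * S := by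
    have e1 : S * S = ∑ e, ∑ f, u e * u f := by rw [hS, sum_mul_sum]
    have e2 : S * S ≤ ∑ e, ∑ f, u e * u f * (a e f + a f e) := by
      rw [e1]
      refine sum_le_sum fun e _ => sum_le_sum fun f _ => ?_
      have h2 := mul_nonneg (hu0 e) (hu0 f)
      have h3 := h1 e f
      nlinarith
    have e3 : ∑ e, ∑ f, u e * u f * (a e f + a f e) = 2 * ∑ e, u e * ∑ f, u f * a e f := by
      have e4 : ∑ e, ∑ f, u e * u f * a f e = ∑ e, ∑ f, u e * u f * a e f := by
        rw [sum_comm]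
        refine sum_congr rfl fun f _ => sum_congr rfl fun e _ => ?_
        rw [mul_comm (u e) (u f)]
      simp only [mul_add, sum_add_distrib]
      rw [e4, two_mul]
      congr 1 <;>
      · refine sum_congr rfl fun e _ => ?_
        rw [mul_sum]
        exact sum_congr rfl fun f _ => by ring
    have e5 : ∑ e, u e * ∑ f, u f * a e f ≤ S * (2 * (L * D)) := by
      rw [hS, sum_mul]
      exact sum_le_sum fun e _ => hrow e
    rw [e3] at e2
    linarith
  rcases hS0.eq_or_lt with h2 | h2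
  · rw [← h2]; positivity
  · have : S ≤ 4 * (L * D) := le_of_mul_le_mul_right hsq h2
    linarith

/-- the points of large weight -/
noncomputable def Bg (ψ : V → V → ℝ) (δ : ℝ) : Finset V := univ.filter fun w => δ < ∑ y, ψ w y

/-- the points of large weight joined to `a` -/
noncomputable def Ba (ψ : V → V → ℝ) (δ : ℝ) (a : V) : Finset V := (Bg ψ δ).filter fun w => ψ a w ≠ 0

/-- the number of these points which form a triple with `a` and `w` -/
noncomputable def hh (E : V → V → V → Prop) (ψ : V → V → ℝ) (δ : ℝ) (a w : V) : ℕ :=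
  ((Ba ψ δ a).filter fun w' => E a w w').card

lemma total_le (h : K4 E) (ψ : V → V → ℝ) (h0 : ∀ x y, 0 ≤ ψ x y) (h1 : ∀ x y, ψ x y ≤ 1)
    (hs : ∀ x y, ψ x y = ψ y x) {L : ℝ} (hL0 : 0 ≤ L)
    (hL : ∀ x y, ψ x y ≠ 0 → ((M E x y).card : ℝ) ≤ L) :
    ∑ x, ∑ y, ψ x y ≤ 4 * L * Fintype.card V := by
  refine key h ψ h0 hs hL0 (by positivity) hL fun x => ?_
  calc ∑ y, ψ x y ≤ ∑ _y : V, (1 : ℝ) := sum_le_sum fun y _ => h1 x y
    _ = Fintype.card V := by simp

lemma card_Bg (h : K4 E) (ψ : V → V → ℝ) (h0 : ∀ x y, 0 ≤ ψ x y) (h1 : ∀ x y, ψ x y ≤ 1)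
    (hs : ∀ x y, ψ x y = ψ y x) {L : ℝ} (hL0 : 0 ≤ L)
    (hL : ∀ x y, ψ x y ≠ 0 → ((M E x y).card : ℝ) ≤ L) (δ : ℝ) :
    ((Bg ψ δ).card : ℝ) * δ ≤ 4 * L * Fintype.card V := by
  refine le_trans ?_ (total_le h ψ h0 h1 hs hL0 hL)
  calc ((Bg ψ δ).card : ℝ) * δ = ∑ _w ∈ Bg ψ δ, δ := by rw [sum_const, nsmul_eq_mul]
    _ ≤ ∑ w ∈ Bg ψ δ, ∑ y, ψ w y := sum_le_sum fun w hw => (mem_filter.1 hw).2.le
    _ ≤ ∑ w, ∑ y, ψ w y := sum_le_univ_sum_of_nonneg fun w => sum_nonneg fun y _ => h0 w y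

lemma split (h : K4 E) (ψ : V → V → ℝ) (h0 : ∀ x y, 0 ≤ ψ x y)
    (hs : ∀ x y, ψ x y = ψ y x) {L δ : ℝ} (hL0 : 0 ≤ L) (hδ : 0 ≤ δ)
    (hL : ∀ x y, ψ x y ≠ 0 → ((M E x y).card : ℝ) ≤ L) :
    ∑ x, ∑ y, ψ x y ≤ 4 * L * δ + 2 * ∑ a, ∑ w ∈ Ba ψ δ a, ψ a w := by
  set B := Bg ψ δ with hB
  set ψS : V → V → ℝ := fun x y => if x ∈ B ∨ y ∈ B then 0 else ψ x y with hψS
  have hk : ∑ x, ∑ y, ψS x y ≤ 4 * L * δ := by
    refine key h ψS (fun x y => ?_) (fun x y => ?_) hL0 hδ (fun x y hxy => ?_) (fun x => ?_)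
    · simp only [hψS]
      split_ifs
      · exact le_rfl
      · exact h0 x y
    · simp only [hψS]
      by_cases hx : x ∈ B <;> by_cases hy : y ∈ B <;> simp [hx, hy, hs x y]
    · refine hL x y fun h2 => hxy ?_
      simp only [hψS]
      rw [h2, ite_self]
    · by_cases hx : x ∈ B
      · rw [sum_eq_zero fun y _ => by simp only [hψS]; rw [if_pos (Or.inl hx)]]
        exact hδ
      · have h2 : ∑ y, ψ x y ≤ δ := by
          by_contra hc
          push Not at hc
          exact hx (mem_filter.2 ⟨mem_univ _, hc⟩)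
        refine le_trans (sum_le_sum fun y _ => ?_) h2
        simp only [hψS]
        split_ifs
        · exact h0 x y
        · exact le_rfl
  have hBa : ∀ x, ∑ y, (if y ∈ B then ψ x y else 0) = ∑ w ∈ Ba ψ δ x, ψ x w := by
    intro x
    unfold Ba
    rw [← sum_filter, sum_filter_of_ne (p := fun w => ψ x w ≠ 0) fun w _ hw => hw]
    congr 1
    rw [hB]
    ext w
    simp
  have hpt : ∀ x y, ψ x y ≤ ψS x y + (if y ∈ B then ψ x y else 0) + (if x ∈ B then ψ y x else 0) := by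
    intro x y
    have h3 := h0 x y
    have h4 := hs x y
    simp only [hψS]
    by_cases hx : x ∈ B <;> by_cases hy : y ∈ B <;> simp [hx, hy] <;> linarith
  calc ∑ x, ∑ y, ψ x y
      ≤ ∑ x, ∑ y, (ψS x y + (if y ∈ B then ψ x y else 0) + (if x ∈ B then ψ y x else 0)) :=
        sum_le_sum fun x _ => sum_le_sum fun y _ => hpt x y
    _ = ∑ x, ∑ y, ψS x y + ∑ x, ∑ y, (if y ∈ B then ψ x y else 0)
        + ∑ y, ∑ x, (if x ∈ B then ψ y x else 0) := by
        simp only [sum_add_distrib]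
        rw [sum_comm (f := fun x y => if x ∈ B then ψ y x else 0)]
    _ ≤ 4 * L * δ + 2 * ∑ a, ∑ w ∈ Ba ψ δ a, ψ a w := by
        simp only [hBa]
        linarith

lemma card_Ba_le (ψ : V → V → ℝ) (δ : ℝ) (a w : V) :
    ((Ba ψ δ a).card : ℝ) ≤ (M E a w).card + hh E ψ δ a w := by
  have h1 : Ba ψ δ a ⊆ M E a w ∪ (Ba ψ δ a).filter fun w' => E a w w' := by
    intro z hz
    rw [mem_union, mem_M, mem_filter]
    by_cases h2 : E a w z
    · exact Or.inr ⟨hz, h2⟩
    · exact Or.inl h2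
  have h2 := (card_le_card h1).trans (card_union_le _ _)
  unfold hh
  exact_mod_cast h2

lemma card_P (h : K4 E) (ψ : V → V → ℝ) {L : ℝ} (hL0 : 0 ≤ L)
    (hL : ∀ x y, ψ x y ≠ 0 → ((M E x y).card : ℝ) ≤ L) (w w' : V) :
    ((univ.filter fun a : V => ψ a w ≠ 0 ∧ ψ a w' ≠ 0 ∧ E a w w').card : ℝ) ≤ 2 * L := by
  rcases (univ.filter fun a : V => ψ a w ≠ 0 ∧ ψ a w' ≠ 0 ∧ E a w w').eq_empty_or_nonempty with h1 | ⟨a0, h1⟩
  · rw [h1]; simp; exact hL0
  · rw [mem_filter] at h1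
    obtain ⟨-, h2, h3, h4⟩ := h1
    have hsub : (univ.filter fun a : V => ψ a w ≠ 0 ∧ ψ a w' ≠ 0 ∧ E a w w') ⊆ M E a0 w ∪ M E a0 w' := by
      intro a ha
      rw [mem_filter] at ha
      obtain ⟨-, -, -, h5⟩ := ha
      rw [mem_union, mem_M, mem_M]
      by_contra hc
      push Not at hc
      exact h.free a0 a w w' (h.sym2 _ _ _ hc.1) (h.sym2 _ _ _ hc.2) h4 h5
    have h5 := (card_le_card hsub).trans (card_union_le _ _)
    have h6 : ((univ.filter fun a : V => ψ a w ≠ 0 ∧ ψ a w' ≠ 0 ∧ E a w w').card : ℝ) ≤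
        (M E a0 w).card + (M E a0 w').card := by exact_mod_cast h5
    linarith [hL a0 w h2, hL a0 w' h3]

lemma sum_hh (h : K4 E) (ψ : V → V → ℝ) {L : ℝ} (hL0 : 0 ≤ L)
    (hL : ∀ x y, ψ x y ≠ 0 → ((M E x y).card : ℝ) ≤ L) (δ : ℝ) :
    ∑ a, ∑ w ∈ Ba ψ δ a, (hh E ψ δ a w : ℝ) ≤ ((Bg ψ δ).card : ℝ) ^ 2 * (2 * L) := by
  have e1 : ∀ a w, (hh E ψ δ a w : ℝ) = ∑ w' ∈ Bg ψ δ, if ψ a w' ≠ 0 ∧ E a w w' then 1 else 0 := by
    intro a w
    unfold hh Ba
    rw [filter_filter, ← sum_filter, sum_const, nsmul_eq_mul, mul_one]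
  have e2 : ∑ a, ∑ w ∈ Ba ψ δ a, (hh E ψ δ a w : ℝ) = ∑ w ∈ Bg ψ δ, ∑ w' ∈ Bg ψ δ,
      ((univ.filter fun a : V => ψ a w ≠ 0 ∧ ψ a w' ≠ 0 ∧ E a w w').card : ℝ) := by
    have e3 : ∀ a, ∑ w ∈ Ba ψ δ a, (hh E ψ δ a w : ℝ) = ∑ w ∈ Bg ψ δ, ∑ w' ∈ Bg ψ δ,
        if ψ a w ≠ 0 ∧ ψ a w' ≠ 0 ∧ E a w w' then 1 else 0 := by
      intro a
      unfold Ba
      rw [sum_filter]
      refine sum_congr rfl fun w _ => ?_
      by_cases h2 : ψ a w ≠ 0
      · rw [if_pos h2, e1]
        refine sum_congr rfl fun w' _ => ?_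
        simp [h2]
      · rw [if_neg h2]
        symm
        refine sum_eq_zero fun w' _ => ?_
        rw [if_neg fun h3 => h2 h3.1]
    rw [sum_congr rfl fun a _ => e3 a, sum_comm]
    refine sum_congr rfl fun w _ => ?_
    rw [sum_comm]
    refine sum_congr rfl fun w' _ => ?_
    rw [← sum_filter, sum_const, nsmul_eq_mul, mul_one]
  rw [e2]
  calc ∑ w ∈ Bg ψ δ, ∑ w' ∈ Bg ψ δ,
      ((univ.filter fun a : V => ψ a w ≠ 0 ∧ ψ a w' ≠ 0 ∧ E a w w').card : ℝ)
      ≤ ∑ _w ∈ Bg ψ δ, ∑ _w' ∈ Bg ψ δ, 2 * L :=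
        sum_le_sum fun w _ => sum_le_sum fun w' _ => card_P h ψ hL0 hL w w'
    _ = ((Bg ψ δ).card : ℝ) ^ 2 * (2 * L) := by
        rw [sum_const, sum_const, nsmul_eq_mul, nsmul_eq_mul]
        ring

/-- **the number of pairs with few missing triples** -/
theorem count (h : K4 E) {t : ℝ} (ht : 0 < t) :
    ((univ.filter fun e : V × V => ((M E e.1 e.2).card : ℝ) ≤ t ^ 3 * Fintype.card V).card : ℝ) ≤
      (2 * t ^ 3 + 68 * t ^ 4) * (Fintype.card V : ℝ) ^ 2 := by
  rcases isEmpty_or_nonempty V with hV | hV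
  · simp
  set n : ℝ := (Fintype.card V : ℝ) with hn
  have hn0 : 0 < n := by rw [hn]; exact_mod_cast Fintype.card_pos
  have hMs : ∀ x y, M E x y = M E y x := by
    intro x y
    ext z
    rw [mem_M, mem_M]
    exact not_congr ⟨h.sym1 _ _ _, h.sym1 _ _ _⟩
  set ψ : V → V → ℝ := fun x y => if ((M E x y).card : ℝ) ≤ t ^ 3 * n then 1 else 0 with hψ
  have h0 : ∀ x y, 0 ≤ ψ x y := fun x y => by simp only [hψ]; split_ifs <;> norm_num
  have h1 : ∀ x y, ψ x y ≤ 1 := fun x y => by simp only [hψ]; split_ifs <;> norm_num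
  have hs : ∀ x y, ψ x y = ψ y x := fun x y => by simp only [hψ]; rw [hMs]
  have hL : ∀ x y, ψ x y ≠ 0 → ((M E x y).card : ℝ) ≤ t ^ 3 * n := by
    intro x y hxy
    by_contra hc
    exact hxy (by simp only [hψ]; rw [if_neg hc])
  have hL0 : 0 ≤ t ^ 3 * n := by positivity
  have e1 : ((univ.filter fun e : V × V => ((M E e.1 e.2).card : ℝ) ≤ t ^ 3 * n).card : ℝ) =
      ∑ x, ∑ y, ψ x y := by
    rw [card_filter, Nat.cast_sum, Fintype.sum_prod_type]
    refine sum_congr rfl fun x _ => sum_congr rfl fun y _ => ?_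
    simp only [hψ]
    push_cast
    rfl
  rw [e1]
  have h2 := split h ψ h0 hs hL0 (δ := t * n) (by positivity) hL
  have h3 := card_Bg h ψ h0 h1 hs hL0 hL (t * n)
  have h4 := sum_hh h ψ hL0 hL (t * n)
  set B := Bg ψ (t * n) with hB
  have hBc : (B.card : ℝ) ≤ 4 * t ^ 2 * n := by
    have h5 : (B.card : ℝ) * (t * n) ≤ 4 * t ^ 2 * n * (t * n) := by
      refine h3.trans (le_of_eq ?_)
      rw [← hn]
      ring
    exact le_of_mul_le_mul_right h5 (by positivity)
  have h5 : ∀ a, ∑ w ∈ Ba ψ (t * n) a, ψ a w ≤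
      t ^ 3 * n + (∑ w ∈ Ba ψ (t * n) a, (hh E ψ (t * n) a w : ℝ)) / (t ^ 3 * n) := by
    intro a
    set k : ℝ := ((Ba ψ (t * n) a).card : ℝ) with hk
    set H : ℝ := ∑ w ∈ Ba ψ (t * n) a, (hh E ψ (t * n) a w : ℝ) with hH
    have hH0 : 0 ≤ H := sum_nonneg fun w _ => by positivity
    have h6 : ∑ w ∈ Ba ψ (t * n) a, ψ a w ≤ k := by
      calc ∑ w ∈ Ba ψ (t * n) a, ψ a w ≤ ∑ _w ∈ Ba ψ (t * n) a, (1 : ℝ) :=
            sum_le_sum fun w _ => h1 a w
        _ = k := by rw [sum_const, nsmul_eq_mul, mul_one]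
    refine h6.trans ?_
    rcases le_or_gt k (t ^ 3 * n) with h7 | h7
    · have : 0 ≤ H / (t ^ 3 * n) := by positivity
      linarith
    · have h8 : k * k ≤ k * (t ^ 3 * n) + H := by
        calc k * k = ∑ _w ∈ Ba ψ (t * n) a, k := by rw [sum_const, nsmul_eq_mul]
          _ ≤ ∑ w ∈ Ba ψ (t * n) a, (t ^ 3 * n + hh E ψ (t * n) a w) := by
              refine sum_le_sum fun w hw => ?_
              have h9 := card_Ba_le (E := E) ψ (t * n) a w
              have h10 := hL a w (mem_filter.1 hw).2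
              linarith
          _ = k * (t ^ 3 * n) + H := by
              rw [sum_add_distrib, sum_const, nsmul_eq_mul]
      have h9 : (k - t ^ 3 * n) * (t ^ 3 * n) ≤ H := by
        have : 0 < k - t ^ 3 * n := by linarith
        nlinarith
      have h10 : k - t ^ 3 * n ≤ H / (t ^ 3 * n) := by
        rw [le_div_iff₀ (by positivity)]
        exact h9
      linarith
  have h6 : ∑ a, ∑ w ∈ Ba ψ (t * n) a, ψ a w ≤ n * (t ^ 3 * n) + 2 * (B.card : ℝ) ^ 2 := by
    refine (sum_le_sum fun a _ => h5 a).trans ?_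
    rw [sum_add_distrib, sum_const, card_univ, nsmul_eq_mul, ← hn, ← sum_div]
    have h7 : (∑ a, ∑ w ∈ Ba ψ (t * n) a, (hh E ψ (t * n) a w : ℝ)) / (t ^ 3 * n) ≤ 2 * (B.card : ℝ) ^ 2 := by
      rw [div_le_iff₀ (by positivity)]
      refine h4.trans (le_of_eq ?_)
      ring
    linarith
  have h7 : (B.card : ℝ) ^ 2 ≤ (4 * t ^ 2 * n) ^ 2 := by gcongr
  nlinarith

/-- `t exp (- t) ≤ exp (- 1)` -/
lemma t_exp (t : ℝ) : t * Real.exp (-t) ≤ Real.exp (-1) := by
  have h1 := Real.add_one_le_exp (t - 1)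
  have h2 : Real.exp (t - 1) * Real.exp (-t) = Real.exp (-1) := by
    rw [← Real.exp_add]; congr 1; ring
  have h3 := Real.exp_pos (-t)
  nlinarith

/-- **exponential weights** -/
theorem expo (h : K4 E) [Nonempty V] {p T κ δ : ℝ} (hp : 0 < p) (hT : 0 < T) (hκ : 0 < κ) (hδ : 0 < δ) :
    ∑ x, ∑ y, Real.exp (-(p * (M E x y).card / Fintype.card V)) ≤
      (Fintype.card V : ℝ) ^ 2 * (Real.exp (-T) + 4 * T * δ / p +
        2 * (Real.exp κ * Real.exp (-1) / p + 32 * T ^ 3 / (κ * δ ^ 2 * p ^ 2))) := by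
  set n : ℝ := (Fintype.card V : ℝ) with hn
  have hn0 : 0 < n := by rw [hn]; exact_mod_cast Fintype.card_pos
  have hMs : ∀ x y, M E x y = M E y x := by
    intro x y
    ext z
    rw [mem_M, mem_M]
    exact not_congr ⟨h.sym1 _ _ _, h.sym1 _ _ _⟩
  set L : ℝ := T * n / p with hLd
  have hL0 : 0 ≤ L := by positivity
  set φ : V → V → ℝ := fun x y => Real.exp (-(p * (M E x y).card / n)) with hφ
  have hφ0 : ∀ x y, 0 < φ x y := fun x y => Real.exp_pos _
  have hφ1 : ∀ x y, φ x y ≤ 1 := fun x y => Real.exp_le_one_iff.2 (by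
    have : 0 ≤ p * ((M E x y).card : ℝ) / n := by positivity
    linarith)
  set ψ : V → V → ℝ := fun x y => if ((M E x y).card : ℝ) ≤ L then φ x y else 0 with hψ
  have h0 : ∀ x y, 0 ≤ ψ x y := fun x y => by
    simp only [hψ]; split_ifs; exacts [(hφ0 x y).le, le_rfl]
  have hψφ : ∀ x y, ψ x y ≤ φ x y := fun x y => by
    simp only [hψ]; split_ifs; exacts [le_rfl, (hφ0 x y).le]
  have h1 : ∀ x y, ψ x y ≤ 1 := fun x y => (hψφ x y).trans (hφ1 x y)
  have hs : ∀ x y, ψ x y = ψ y x := fun x y => by simp only [hψ, hφ]; rw [hMs]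
  have hL : ∀ x y, ψ x y ≠ 0 → ((M E x y).card : ℝ) ≤ L := by
    intro x y hxy
    by_contra hc
    exact hxy (by simp only [hψ]; rw [if_neg hc])
  have e1 : ∑ x, ∑ y, φ x y ≤ ∑ x, ∑ y, ψ x y + n ^ 2 * Real.exp (-T) := by
    have h2 : ∀ x y, φ x y ≤ ψ x y + Real.exp (-T) := by
      intro x y
      simp only [hψ]
      split_ifs with h3
      · linarith [Real.exp_pos (-T)]
      · rw [zero_add]
        push Not at h3
        refine Real.exp_le_exp.2 (neg_le_neg ?_)
        rw [le_div_iff₀ hn0]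
        rw [hLd, div_lt_iff₀ hp] at h3
        linarith
    calc ∑ x, ∑ y, φ x y ≤ ∑ x, ∑ y, (ψ x y + Real.exp (-T)) :=
          sum_le_sum fun x _ => sum_le_sum fun y _ => h2 x y
      _ = ∑ x, ∑ y, ψ x y + n ^ 2 * Real.exp (-T) := by
          simp only [sum_add_distrib, sum_const, card_univ, nsmul_eq_mul, ← hn]
          ring
  have h2 := split h ψ h0 hs hL0 (δ := δ * n) (by positivity) hL
  have h3 := card_Bg h ψ h0 h1 hs hL0 hL (δ * n)
  have h4 := sum_hh h ψ hL0 hL (δ * n)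
  set B := Bg ψ (δ * n) with hB
  have hBc : (B.card : ℝ) ≤ 4 * L / δ := by
    rw [le_div_iff₀ hδ]
    have h5 : (B.card : ℝ) * δ * n ≤ 4 * L * n := by
      refine (le_of_eq ?_).trans h3
      ring
    exact le_of_mul_le_mul_right h5 hn0
  have h5 : ∀ a, ∑ w ∈ Ba ψ (δ * n) a, ψ a w ≤
      Real.exp κ * (n / p * Real.exp (-1)) +
        p / (κ * n) * ∑ w ∈ Ba ψ (δ * n) a, (hh E ψ (δ * n) a w : ℝ) := by
    intro a
    set k : ℝ := ((Ba ψ (δ * n) a).card : ℝ) with hk
    have hw : ∀ w ∈ Ba ψ (δ * n) a, ψ a w ≤ Real.exp κ * Real.exp (-(p * k / n)) +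
        p / (κ * n) * (hh E ψ (δ * n) a w : ℝ) := by
      intro w hw
      have h9 := card_Ba_le (E := E) ψ (δ * n) a w
      rw [← hk] at h9
      set q : ℝ := (hh E ψ (δ * n) a w : ℝ) with hq
      have hq0 : 0 ≤ q := by rw [hq]; positivity
      rcases le_or_gt (p / (κ * n) * q) 1 with h6 | h6
      · have h7 : p * q ≤ κ * n := by
          have e : p / (κ * n) * q = p * q / (κ * n) := by ring
          rw [e, div_le_one (by positivity)] at h6
          exact h6
        have h8 : ψ a w ≤ Real.exp κ * Real.exp (-(p * k / n)) := by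
          refine (hψφ a w).trans ?_
          rw [← Real.exp_add]
          refine Real.exp_le_exp.2 ?_
          have e : -(p * ((M E a w).card : ℝ) / n) = κ + -(p * k / n) +
              (p * k - p * (M E a w).card - κ * n) / n := by
            field_simp
            ring
          rw [e]
          have h10 : (p * k - p * (M E a w).card - κ * n) / n ≤ 0 := by
            refine div_nonpos_of_nonpos_of_nonneg ?_ hn0.le
            nlinarith
          linarith
        have h10 : 0 ≤ p / (κ * n) * q := by positivity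
        linarith
      · have h7 := h1 a w
        have h8 : 0 ≤ Real.exp κ * Real.exp (-(p * k / n)) := by positivity
        linarith
    refine (sum_le_sum hw).trans ?_
    rw [sum_add_distrib, sum_const, nsmul_eq_mul, ← mul_sum, ← hk]
    have h6 := t_exp (p * k / n)
    have h7 : k * (Real.exp κ * Real.exp (-(p * k / n))) =
        Real.exp κ * (n / p * (p * k / n * Real.exp (-(p * k / n)))) := by
      field_simp
    rw [h7]
    gcongr
  have h6 : ∑ a, ∑ w ∈ Ba ψ (δ * n) a, ψ a w ≤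
      n * (Real.exp κ * (n / p * Real.exp (-1))) + p / (κ * n) * ((4 * L / δ) ^ 2 * (2 * L)) := by
    refine (sum_le_sum fun a _ => h5 a).trans ?_
    rw [sum_add_distrib, sum_const, card_univ, nsmul_eq_mul, ← hn, ← mul_sum]
    gcongr
    refine h4.trans ?_
    gcongr
  have e2 : n ^ 2 * (Real.exp (-T) + 4 * T * δ / p +
        2 * (Real.exp κ * Real.exp (-1) / p + 32 * T ^ 3 / (κ * δ ^ 2 * p ^ 2))) =
      4 * L * (δ * n) + 2 * (n * (Real.exp κ * (n / p * Real.exp (-1))) +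
        p / (κ * n) * ((4 * L / δ) ^ 2 * (2 * L))) + n ^ 2 * Real.exp (-T) := by
    rw [hLd]
    field_simp
    ring
  rw [e2]
  linarith

end Pool.Agent.U946.LP
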